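import Pool.Agent.Helper2_Pack.S1
import Pool.Agent.Helper2_Pack.S2
import Pool.Agent.Helper2_Pack.S4

/-!
# F9: the vertical sides
-/

namespace Pool.Agent.Helper34_Pack

open Pool.Agent.Helper2_Pack MeasureTheory

theorem local_close {q : ℝ} {g : Motion} {a z w : ℂ} (hq1 : q ≤ 1 / 1000) (hq : 0 < q)
    (hu : ‖g.u - 1‖ ≤ q ^ 2) (hv : ‖g.v - a‖ ≤ q ^ 2)
    (hw : w = (starRingEnd ℂ) g.u * (z - g.v)) (hb : ‖w‖ ≤ 3 ∨ ‖z - a‖ ≤ 2) :
    ‖w - (z - a)‖ ≤ 4 * q ^ 2 := by
  have hq2 : q ^ 2 ≤ 1 / 1000 := by nlinarith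
  have hq20 : 0 ≤ q ^ 2 := by positivity
  rcases hb with hb | hb
  · have e : w - (z - a) = (1 - g.u) * w - (g.v - a) := by
      rw [hw]
      linear_combination (z - g.v) * g.mul_conj'
    rw [e]
    calc ‖(1 - g.u) * w - (g.v - a)‖ ≤ ‖(1 - g.u) * w‖ + ‖g.v - a‖ := norm_sub_le _ _
      _ ≤ q ^ 2 * 3 + q ^ 2 := by
        refine add_le_add ?_ hv
        rw [norm_mul, ← norm_sub_rev]
        gcongr
      _ = 4 * q ^ 2 := by ring
  · have e : w - (z - a) = ((starRingEnd ℂ) g.u - 1) * (z - a) -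
        (starRingEnd ℂ) g.u * (g.v - a) := by
      rw [hw]
      ring
    have h1 : ‖(starRingEnd ℂ) g.u - 1‖ = ‖g.u - 1‖ := by
      rw [← Complex.norm_conj (g.u - 1), map_sub, map_one]
    rw [e]
    calc ‖((starRingEnd ℂ) g.u - 1) * (z - a) - (starRingEnd ℂ) g.u * (g.v - a)‖
        ≤ ‖((starRingEnd ℂ) g.u - 1) * (z - a)‖ + ‖(starRingEnd ℂ) g.u * (g.v - a)‖ :=
          norm_sub_le _ _
      _ ≤ q ^ 2 * 2 + 1 * q ^ 2 := by
        rw [norm_mul, norm_mul, h1, Complex.norm_conj, g.unit]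
        gcongr
      _ ≤ 4 * q ^ 2 := by linarith

theorem norm_le_abs (z : ℂ) {A B : ℝ} (h1 : |z.re| ≤ A) (h2 : |z.im| ≤ B) : ‖z‖ ≤ A + B :=
  (Complex.norm_le_abs_re_add_abs_im z).trans (add_le_add h1 h2)

theorem tile_box {q : ℝ} {g : Motion} {a z : ℂ} {t : Tile} (hq : 0 < q) (hq1 : q ≤ 1 / 1000)
    (hu : ‖g.u - 1‖ ≤ q ^ 2) (hv : ‖g.v - a‖ ≤ q ^ 2) (hz : z ∈ img q g (.tile t)) :
    t.xl q - 4 * q ^ 2 ≤ z.re - a.re ∧ z.re - a.re ≤ t.xr q + 4 * q ^ 2 ∧
      -(4 * q ^ 2) ≤ z.im - a.im ∧ z.im - a.im ≤ 1 + q + 4 * q ^ 2 := by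
  have hz' := (g.mem_image _ z).1 hz
  set w := (starRingEnd ℂ) g.u * (z - g.v) with hw
  obtain ⟨h1, h2, h3, h4⟩ := t.sub hq hz'
  obtain ⟨h5, h6, -, -⟩ := hz'
  have hn : ‖w‖ ≤ 3 := (norm_le_abs w (abs_le.2 ⟨by linarith, h2⟩) (abs_le.2 ⟨by linarith, h4⟩)).trans
    (by linarith)
  have h := local_close hq1 hq hu hv hw (Or.inl hn)
  have hre := (Complex.abs_re_le_norm _).trans h
  have him := (Complex.abs_im_le_norm _).trans h
  rw [Complex.sub_re, Complex.sub_re, abs_le] at hre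
  rw [Complex.sub_im, Complex.sub_im, abs_le] at him
  have h5' : t.xl q ≤ w.re := h5
  have h6' : w.re ≤ t.xr q := h6
  refine ⟨?_, ?_, ?_, ?_⟩ <;> linarith

theorem tile_int {q : ℝ} {g : Motion} {a z : ℂ} {t : Tile} (hq : 0 < q) (hq1 : q ≤ 1 / 1000)
    (hu : ‖g.u - 1‖ ≤ q ^ 2) (hv : ‖g.v - a‖ ≤ q ^ 2)
    (h1 : t.xl q + 4 * q ^ 2 < z.re - a.re) (h2 : z.re - a.re < t.xr q - 4 * q ^ 2)
    (h3 : 1 / 4 ≤ z.im - a.im) (h4 : z.im - a.im ≤ 3 / 4) : z ∈ interior (img q g (.tile t)) := by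
  have hq2 : q ^ 2 ≤ q / 1000 := by nlinarith
  have hq20 : 0 ≤ q ^ 2 := by positivity
  have hq3 := cube_small hq hq1
  have hx0 := t.xl_nonneg hq
  have hx1 := t.xr_le hq
  have hn : ‖z - a‖ ≤ 2 := by
    refine (norm_le_abs (z - a) (A := 1 + q) (B := 3 / 4) ?_ ?_).trans (by linarith)
    · rw [Complex.sub_re, abs_le]
      constructor <;> linarith
    · rw [Complex.sub_im, abs_le]
      constructor <;> linarith
  unfold img
  rw [(s2 g _).1, g.mem_image]
  set w := (starRingEnd ℂ) g.u * (z - g.v) with hw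
  have h := local_close hq1 hq hu hv hw (Or.inr hn)
  have hre := (Complex.abs_re_le_norm _).trans h
  have him := (Complex.abs_im_le_norm _).trans h
  rw [Complex.sub_re, Complex.sub_re, abs_le] at hre
  rw [Complex.sub_im, Complex.sub_im, abs_le] at him
  have hg := (t.good hq hq1).interior_eq
  have e : interior (Shp.reg q (.tile t)) = interior (t.sh q).reg := rfl
  rw [e, hg]
  have h5 : t.xl q < w.re := by linarith
  have h6 : w.re < t.xr q := by linarith
  refine ⟨h5, h6, ?_, ?_⟩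
  · exact (t.lo_le hq hq1 h5.le).trans_lt (by linarith)
  · exact lt_of_lt_of_le (by linarith) (t.le_hi hq h5.le)

theorem Small.area {q : ℝ} {G : Layout} (h : Small q G) : 64 * G.K * q ^ 3 < q / 4 := by
  have h0 := h.pos
  have h1 := h.small
  have h2 := h.le
  have h3 : (G.K : ℝ) ≤ 2 ^ (8 * G.K) := by
    have : G.K < 2 ^ G.K := Nat.lt_two_pow_self
    have h4 : 2 ^ G.K ≤ 2 ^ (8 * G.K) := Nat.pow_le_pow_right (by norm_num) (by omega)
    have h5 : G.K ≤ 2 ^ (8 * G.K) := by omega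
    exact_mod_cast h5
  have h4 : q * G.K * 2 ^ 60 ≤ 1 := by
    calc q * G.K * 2 ^ 60 ≤ q * 2 ^ (8 * G.K) * 2 ^ 60 := by gcongr
      _ = q * 2 ^ (8 * G.K + 60) := by ring
      _ ≤ 1 := h1
  have h5 : q ≤ 1 := h2.trans (by norm_num)
  have h6 : q * G.K ≤ 1 / 1000 := by
    norm_num at h4
    linarith
  have h7 : 64 * G.K * q ^ 3 = 64 * (q * G.K) * (q * q) := by ring
  rw [h7]
  have h8 : q * q ≤ 1 * q := mul_le_mul_of_nonneg_right h5 h0.le
  have h9 : 0 < q * q := by positivity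
  have h10 : 64 * (q * G.K) * (q * q) ≤ 64 * (1 / 1000) * (q * q) := by gcongr
  linarith

section

variable {q : ℝ} {G : Layout} {p : Packing q G} {f : Cell G ≃ Cell G} {ty : ℕ → ℕ → Tile}

theorem no_gap (hA2 : A2Stmt) (hC7 : C7Stmt) (hG : G.OK) (hS : Small q G) (hf : IsCoarse p f)
    (hA : FineArray p f ty) (k r : ℕ) (hk : k < G.M) (hr : r < G.N)
    (hnar : (ty k r).narrow = true) (hprev : ∀ c, c + 1 = k → (ty c r).wide = false) : False := by
  have hq := hS.pos
  have hq60 := hS.le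
  have hq20 : q ≤ 1 / 2 ^ 20 := hq60.trans (by norm_num)
  have hq1 : q ≤ 1 / 1000 := hq60.trans (by norm_num)
  have hq2 : q ^ 2 ≤ q / 1000 := by nlinarith
  have hq2' : 0 < q ^ 2 := by positivity
  have hkM : (k : ℝ) + 1 ≤ G.M := by exact_mod_cast hk
  have hrN : (r : ℝ) + 1 ≤ G.N := by exact_mod_cast hr
  have hk0 : (0 : ℝ) ≤ k := Nat.cast_nonneg k
  have hr0 : (0 : ℝ) ≤ r := Nat.cast_nonneg r
  set B : Set ℂ := {z : ℂ | (k : ℝ) + q / 4 ≤ z.re ∧ z.re ≤ k + 3 * q / 4 ∧
    (r : ℝ) + 1 / 4 ≤ z.im ∧ z.im ≤ r + 3 / 4} with hB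
  have hvol : volume B = ENNReal.ofReal (q / 4) := by
    rw [hB, volume_box (by linarith)]
    congr 1
    ring
  have hsub : B ⊆ G.cont q \ p.occ := by
    rintro z ⟨h1, h2, h3, h4⟩
    refine ⟨(s4 q G hG hS).2.2.2.1 z (by linarith) (by linarith) (by linarith) (by linarith), ?_⟩
    intro hz
    unfold Packing.occ at hz
    rw [Set.mem_iUnion] at hz
    obtain ⟨j, hj⟩ := hz
    obtain ⟨i, rfl⟩ := f.surjective j
    rcases i with ⟨c', r'⟩ | c'
    · obtain ⟨ha1, ha2, ha3⟩ := hA c' r'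
      rw [ha1] at hj
      obtain ⟨h5, h6, h7, h8⟩ := tile_box hq hq1 ha2 ha3 hj
      simp only at h5 h6 h7 h8
      have hxr := (ty c' r').xr_le hq
      have hxl := (ty c' r').xl_nonneg hq
      rcases lt_trichotomy (r' : ℕ) r with h | h | h
      · have : ((r' : ℕ) : ℝ) + 1 ≤ r := by exact_mod_cast h
        linarith
      · have hr' : ((r' : ℕ) : ℝ) = r := by rw [h]
        rcases lt_trichotomy (c' : ℕ) k with h' | h' | h'
        · rcases Nat.lt_or_eq_of_le (Nat.succ_le_of_lt h') with h'' | h''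
          · have : ((c' : ℕ) : ℝ) + 1 + 1 ≤ k := by exact_mod_cast h''
            linarith
          · have hw := hprev c' h''
            rw [h] at h6
            unfold Tile.xr at h6
            rw [hw] at h6
            have : ((c' : ℕ) : ℝ) + 1 = k := by exact_mod_cast h''
            simp only [Bool.false_eq_true, if_false] at h6
            linarith
        · rw [h, h'] at h5
          unfold Tile.xl at h5
          rw [hnar] at h5
          simp only [if_true] at h5
          linarith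
        · have : (k : ℝ) + 1 ≤ (c' : ℕ) := by exact_mod_cast h'
          linarith
      · have : (r : ℝ) + 1 ≤ (r' : ℕ) := by exact_mod_cast h
        linarith
    · have h5 := (hC7 q (1 / 1024) (corner (.inr c')) (p.g (f (.inr c'))) hq hq20 (by norm_num)
        (by norm_num) (hf (.inr c'))).2 _ z hj
      have h6 := h5.2.2.1
      rw [Complex.sub_im] at h6
      have h7 : (corner (.inr c' : Cell G)).im = G.N := rfl
      rw [h7] at h6
      linarith
  have h1 : ENNReal.ofReal (q / 4) ≤ ENNReal.ofReal (64 * G.K * q ^ 3) := by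
    rw [← hvol]
    exact (measure_mono hsub).trans (hA2 q G p hG hS)
  rw [ENNReal.ofReal_le_ofReal_iff (by positivity)] at h1
  exact absurd h1 (not_le.2 (Small.area hS))

end

/-- F9 from A2 and C7 -/
theorem f9 (hA2 : A2Stmt) (hC7 : C7Stmt) : F9Stmt := by
  intro q G p f ty hG hS hf hA
  have hq := hS.pos
  have hq60 := hS.le
  have hq1 : q ≤ 1 / 1000 := hq60.trans (by norm_num)
  have hq2 : q ^ 2 ≤ q / 1000 := by nlinarith
  have hq2' : 0 < q ^ 2 := by positivity
  refine ⟨fun c r hc hr => ?_, fun r hr => ?_, fun r hr => ?_⟩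
  · rcases hw : (ty c r).wide with _ | _ <;> rcases hn : (ty (c + 1) r).narrow with _ | _
    · rfl
    · exact (no_gap hA2 hC7 hG hS hf hA (c + 1) r hc hr hn fun c' hc' => by
        have : c' = c := by omega
        rw [this, hw]).elim
    · exfalso
      have hc0 : c < G.M := by omega
      obtain ⟨h1, h2, h3⟩ := hA ⟨c, hc0⟩ ⟨r, hr⟩
      obtain ⟨k1, k2, k3⟩ := hA ⟨c + 1, hc⟩ ⟨r, hr⟩
      have hz1 : (⟨(c : ℝ) + 1 + q / 2, r + 1 / 2⟩ : ℂ) ∈
          interior (img q (p.g (f (.inl (⟨c, hc0⟩, ⟨r, hr⟩)))) (.tile (ty c r))) := by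
        refine tile_int hq hq1 h2 h3 ?_ ?_ ?_ ?_
        · have := (ty c r).xl_le hq
          simp only
          linarith
        · unfold Tile.xr
          rw [hw]
          simp only [if_true]
          linarith
        · simp only
          linarith
        · simp only
          linarith
      have hz2 : (⟨(c : ℝ) + 1 + q / 2, r + 1 / 2⟩ : ℂ) ∈
          interior (img q (p.g (f (.inl (⟨c + 1, hc⟩, ⟨r, hr⟩)))) (.tile (ty (c + 1) r))) := by
        refine tile_int hq hq1 k2 k3 ?_ ?_ ?_ ?_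
        · unfold Tile.xl
          rw [hn]
          simp only [Bool.false_eq_true, if_false]
          push_cast
          linarith
        · have := (ty (c + 1) r).le_xr hq
          simp only
          push_cast
          linarith
        · simp only
          linarith
        · simp only
          linarith
      have hne : f (.inl (⟨c, hc0⟩, ⟨r, hr⟩)) ≠ f (.inl (⟨c + 1, hc⟩, ⟨r, hr⟩)) := by
        intro h
        have := f.injective h
        simp at this
      have hd := p.disj _ _ hne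
      rw [h1, k1] at hd
      exact Set.disjoint_left.1 hd hz1 hz2
    · rfl
  · rcases hn : (ty 0 r).narrow with _ | _
    · rfl
    · exact (no_gap hA2 hC7 hG hS hf hA 0 r hG.pos hr hn fun c' hc' => by omega).elim
  · rcases hw : (ty (G.M - 1) r).wide with _ | _
    · rfl
    · exfalso
      have hM := hG.pos
      have hc : G.M - 1 < G.M := by omega
      obtain ⟨h1, h2, h3⟩ := hA ⟨G.M - 1, hc⟩ ⟨r, hr⟩
      set g := p.g (f (.inl (⟨G.M - 1, hc⟩, ⟨r, hr⟩))) with hg
      have hmem : (⟨1 + q, 1 / 2⟩ : ℂ) ∈ Shp.reg q (.tile (ty (G.M - 1) r)) := by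
        have hxl := (ty (G.M - 1) r).xl_le hq
        have h4 : (ty (G.M - 1) r).xl q ≤ 1 + q := by linarith
        have hq3 := cube_small hq hq1
        refine ⟨h4, ?_, ?_, ?_⟩
        · show 1 + q ≤ (ty (G.M - 1) r).xr q
          unfold Tile.xr
          rw [hw]
          simp
        · exact ((ty (G.M - 1) r).lo_le hq hq1 h4).trans (by simp only; linarith)
        · exact le_trans (by simp only; linarith) ((ty (G.M - 1) r).le_hi hq h4)
      have hz : g.app ⟨1 + q, 1 / 2⟩ ∈ img q g (.tile (ty (G.M - 1) r)) := ⟨_, hmem, rfl⟩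
      have hw' : (⟨1 + q, 1 / 2⟩ : ℂ) = (starRingEnd ℂ) g.u * (g.app ⟨1 + q, 1 / 2⟩ - g.v) :=
        (g.homeo.left_inv _).symm
      have hcl := local_close hq1 hq h2 h3 hw' (Or.inl ((norm_le_abs _ (A := 1 + q) (B := 1 / 2)
        (by rw [abs_of_nonneg] <;> simp only <;> linarith)
        (by rw [abs_of_nonneg] <;> norm_num)).trans (by linarith)))
      have hre := (Complex.abs_re_le_norm _).trans hcl
      rw [Complex.sub_re, Complex.sub_re, abs_le] at hre
      have hcont := p.sub (f (.inl (⟨G.M - 1, hc⟩, ⟨r, hr⟩)))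
      rw [h1] at hcont
      have h5 := ((s4 q G hG hS).2.1 _ (hcont hz)).2.1
      have h6 : ((G.M - 1 : ℕ) : ℝ) + 1 = G.M := by
        have : G.M - 1 + 1 = G.M := by omega
        exact_mod_cast this
      simp only at hre
      have h7 : q ^ 4 ≤ q / 1000 := by
        have : q ^ 4 = q ^ 2 * q ^ 2 := by ring
        rw [this]
        have h8 : q ^ 2 ≤ 1 := by linarith
        nlinarith
      linarith [hre.2]

end Pool.Agent.Helper34_Pack
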