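import Pool.Agent.Helper34_Pack.P9c

/-!
# P2: the polygon of the container
-/

namespace Pool.Agent.Helper34_Pack

open Pool.Agent.Helper2_Pack

theorem floorF_lt {q : ℝ} (G : Layout) (h0 : 0 < q) (h1 : q ≤ 1 / 1000) (x : ℝ) :
    G.floorF q x < 1 / 2 := by
  have : G.floorF q x ≤ q := by
    unfold Layout.floorF locFloor
    refine (tents_le_iff _ _ _ _).2 ⟨h0.le, fun d hd => ?_⟩
    unfold bumps at hd
    obtain ⟨p, hp, rfl⟩ := List.mem_map.1 hd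
    dsimp only
    linarith [abs_nonneg (x - ⌊x⌋₊ - (p : ℝ) / 32)]
  linarith

theorem locCeil_ge {q : ℝ} (t : Top) (h0 : 0 < q) (ht : ∀ a o, t = .flat a o → o = -1 ∨ o = 0 ∨ o = 1)
    {x : ℝ} (hx0 : 0 ≤ x) (hx1 : x ≤ 1) : -q ^ 4 ≤ locCeil q t x := by
  have hB : 0 < q ^ 4 := by positivity
  rcases t with ⟨a, o⟩ | σ | σ
  · refine le_trans ?_ (le_max_left _ _)
    set s := min (1 : ℝ) (min (x / (4 * q ^ 3)) ((1 - x) / (4 * q ^ 3))) with hs
    have hs0 : 0 ≤ s := le_min zero_le_one (le_min (by positivity)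
      (div_nonneg (by linarith) (by positivity)))
    have hs1 : s ≤ 1 := min_le_left _ _
    have h3 : s * q ^ 4 ≤ 1 * q ^ 4 := mul_le_mul_of_nonneg_right hs1 hB.le
    have h4 : 0 ≤ s * q ^ 4 := by positivity
    rcases ht a o rfl with rfl | rfl | rfl <;> push_cast <;> linarith
  · refine le_trans (le_trans ?_ (le_tents _ _ _)) ((le_max_right _ _).trans (le_max_left _ _))
    linarith
  · refine le_trans (le_trans ?_ (le_tents _ _ _)) ((le_max_right _ _).trans (le_max_left _ _))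
    linarith

theorem lt_ceilF {q : ℝ} {G : Layout} (hG : G.OK) (h0 : 0 < q) (h1 : q ≤ 1 / 1000) (x : ℝ)
    (hx : 0 ≤ x) : 2 * (G.n : ℝ) + 1 / 2 < G.ceilF q x := by
  have h2 := locCeil_ge (q := q) (G.top ⌊x⌋₊) h0 (top_flat hG _) (x := x - ⌊x⌋₊)
    (by linarith [Nat.floor_le hx]) (by linarith [Nat.lt_floor_add_one x])
  have h3 : q ^ 4 < 1 / 2 := by
    calc q ^ 4 ≤ (1 / 1000) ^ 4 := pow_le_pow_left₀ h0.le h1 4
      _ < 1 / 2 := by norm_num
  unfold Layout.ceilF Layout.N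
  push_cast
  linarith

/-- P2 from P5 and P6 -/
theorem p2 (hP5 : P5Stmt) (hP6 : P6Stmt) : P2Stmt := by
  intro m G hG hm
  obtain ⟨hF, hC, hv⟩ := p9 m G hG hm
  have hq0 : (0 : ℝ) < (1 / 2) ^ m := by positivity
  have hq1 : (1 / 2 : ℝ) ^ m ≤ 1 / 1000 := by
    calc (1 / 2 : ℝ) ^ m ≤ (1 / 2) ^ 20 := pow_le_pow_of_le_one (by norm_num) (by norm_num) hm
      _ ≤ 1 / 1000 := by norm_num
  have hM : (0 : ℚ) < G.M := by exact_mod_cast hG.pos
  have hN : ((G.N : ℕ) : ℚ) = 2 * G.n + 1 := by unfold Layout.N; push_cast; rfl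
  have h5 := hP5 (G.floorPts (qq m)) (G.ceilPts (qq m)) G.M (qq m ^ 4) G.n hF hC hM
    (pow_pos (qq_pos m) 4) (floor_head G _) (floor_last G _) (by rw [ceil_head hG, hN])
    (by rw [ceil_last, hN]) (fun x hx0 hx1 => by
      rw [(hv x hx0 (by simpa using hx1)).1, (hv x hx0 (by simpa using hx1)).2]
      exact ⟨floorF_lt G hq0 hq1 x, lt_ceilF hG hq0 hq1 x hx0⟩)
  obtain ⟨h5a, h5b⟩ := h5
  have h6 := hP6 _ (shift m) (shift m) h5a
  refine ⟨h6.1, ?_⟩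
  have h7 : region (G.contPoly m) = _ := h6.2
  rw [h7, h5b]
  congr 1
  unfold Layout.cont
  have hqc : (((qq m) ^ 4 : ℚ) : ℝ) = ((1 / 2) ^ m) ^ 4 := by
    rw [Rat.cast_pow, qq_cast]
  have hMc : (((G.M : ℕ) : ℚ) : ℝ) = G.M := by simp
  rw [hqc, hMc]
  have hNN : 2 * G.n + 1 = G.N := rfl
  rw [hNN]
  congr 1
  ext z
  simp only [Set.mem_ofPred_eq]
  constructor
  · rintro ⟨h1, h2, h3, h4⟩
    rw [(hv _ h1 h2).1] at h3
    rw [(hv _ h1 h2).2] at h4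
    exact ⟨h1, h2, h3, h4⟩
  · rintro ⟨h1, h2, h3, h4⟩
    rw [← (hv _ h1 h2).1] at h3
    rw [← (hv _ h1 h2).2] at h4
    exact ⟨h1, h2, h3, h4⟩

end Pool.Agent.Helper34_Pack
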