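import Pool.Agent.Helper34_Pack.P2

/-!
# P3: the instance
-/

namespace Pool.Agent.Helper34_Pack

open Pool.Agent.Helper2_Pack

/-- the cells of a layout, as a list -/
def cells (G : Layout) : List (Cell G) :=
  (List.finRange G.M).flatMap fun c => (List.finRange G.N).map (fun r => (Sum.inl (c, r) : Cell G)) ++
    (if h : (G.top c).isL = true then [(Sum.inr ⟨c, h⟩ : Cell G)] else [])

theorem mem_cells (G : Layout) (x : Cell G) : x ∈ cells G := by
  unfold cells
  rcases x with ⟨c, r⟩ | ⟨c, h⟩
  · exact List.mem_flatMap.2 ⟨c, List.mem_finRange c, List.mem_append.2 (Or.inl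
      (List.mem_map.2 ⟨r, List.mem_finRange r, rfl⟩))⟩
  · refine List.mem_flatMap.2 ⟨c, List.mem_finRange c, List.mem_append.2 (Or.inr ?_)⟩
    rw [dif_pos h]
    exact List.mem_singleton.2 rfl

theorem nodup_cells (G : Layout) : (cells G).Nodup := by
  unfold cells
  rw [List.nodup_flatMap]
  refine ⟨fun c _ => ?_, (List.nodup_finRange _).imp fun {c c'} hcc => ?_⟩
  · refine List.Nodup.append ?_ ?_ ?_
    · exact (List.nodup_finRange _).map fun r r' h => by
        simpa using h
    · split_ifs
      · exact List.nodup_singleton _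
      · exact List.nodup_nil
    · intro x hx hx'
      obtain ⟨r, _, rfl⟩ := List.mem_map.1 hx
      split_ifs at hx'
      · simp at hx'
      · simp at hx'
  · intro x hx hx'
    have key : ∀ (d : Fin G.M) (y : Cell G), y ∈ (List.finRange G.N).map
        (fun r => (Sum.inl (d, r) : Cell G)) ++
        (if h : (G.top d).isL = true then [Sum.inr ⟨d, h⟩] else []) →
        Sum.elim (fun p => p.1) (fun c => c.1) y = d := by
      intro d y hy
      rcases List.mem_append.1 hy with h | h
      · obtain ⟨r, _, rfl⟩ := List.mem_map.1 h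
        rfl
      · split_ifs at h
        · rw [List.mem_singleton] at h
          subst h
          rfl
        · simp at h
    exact hcc ((key c x hx).symm.trans (key c' x hx'))

theorem shapes_eq (G : Layout) : G.shapes = (cells G).map G.shp := by
  unfold Layout.shapes cells
  rw [List.map_flatMap, ← List.map_coe_finRange_eq_range (n := G.M), List.flatMap_map]
  congr 1
  funext c
  rw [List.map_append, ← List.map_coe_finRange_eq_range (n := G.N)]
  congr 1
  · rw [List.map_map, List.map_map]
    rfl
  · split_ifs <;> rfl

/-- solvability in terms of the cells -/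
theorem solvable_iff (m : ℕ) (G : Layout) : (inst m G).Solvable ↔ ∃ φ : Cell G → Motion,
    (∀ x, (φ x).app '' region (poly m (G.shp x)) ⊆ region (G.contPoly m)) ∧
    ∀ x y, x ≠ y → Disjoint (interior ((φ x).app '' region (poly m (G.shp x))))
      (interior ((φ y).app '' region (poly m (G.shp y)))) := by
  have hp : (inst m G).pieces = (cells G).map fun x => poly m (G.shp x) := by
    change G.shapes.map (poly m) = _
    rw [shapes_eq, List.map_map]
    rfl
  have hlen : (inst m G).pieces.length = (cells G).length := by rw [hp, List.length_map]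
  let e : Fin (inst m G).pieces.length ≃ Cell G :=
    (finCongr hlen).trans (List.Nodup.getEquivOfForallMemList (cells G) (nodup_cells G) (mem_cells G))
  have he : ∀ i, (inst m G).pieces.get i = poly m (G.shp (e i)) := by
    intro i
    simp only [List.get_eq_getElem, hp, List.getElem_map]
    rfl
  constructor
  · rintro ⟨φ, h1, h2⟩
    refine ⟨fun x => φ (e.symm x), fun x => ?_, fun x y hxy => ?_⟩
    · have := h1 (e.symm x)
      rw [he, Equiv.apply_symm_apply] at this
      exact this
    · have := h2 (e.symm x) (e.symm y) (fun h => hxy (e.symm.injective h))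
      rw [he, he, Equiv.apply_symm_apply, Equiv.apply_symm_apply] at this
      exact this
  · rintro ⟨φ, h1, h2⟩
    refine ⟨fun i => φ (e i), fun i => ?_, fun i j hij => ?_⟩
    · rw [he]
      exact h1 (e i)
    · rw [he, he]
      exact h2 (e i) (e j) fun h => hij (e.injective h)

/-- the translation by `s` -/
def T (s : ℂ) (z : ℂ) : ℂ := z + s

theorem T_interior (s : ℂ) (S : Set ℂ) : interior (T s '' S) = T s '' interior S :=
  ((Homeomorph.addRight s).image_interior S).symm

theorem T_inj (s : ℂ) : Function.Injective (T s) := fun a b h => by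
  unfold T at h
  exact add_right_cancel h

/-- conjugation of a motion by a translation -/
def conj (s : ℂ) (g : Motion) : Motion := ⟨g.u, g.v + s - g.u * s, g.unit⟩

theorem conj_image (s : ℂ) (g : Motion) (S : Set ℂ) :
    (conj s g).app '' (T s '' S) = T s '' (g.app '' S) := by
  rw [Set.image_image, Set.image_image]
  congr 1
  funext z
  unfold conj Motion.app T
  ring

theorem conj_conj (s : ℂ) (g : Motion) : conj s (conj (-s) g) = g := by
  rcases g with ⟨u, v, hu⟩
  unfold conj
  simp only [Motion.mk.injEq, true_and]
  ring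

/-- the eleven shapes -/
def code : Shp → ℕ
  | .tile .P => 0
  | .tile .Q => 1
  | .tile .Qm => 2
  | .tile .R => 3
  | .tile .U => 4
  | .tile .Tap => 5
  | .tile .Tbp => 6
  | .tile .Tam => 7
  | .tile .Tbm => 8
  | .lever true => 9
  | .lever false => 10

theorem code_lt (s : Shp) : code s < 11 := by
  rcases s with t | σ
  · cases t <;> simp [code]
  · cases σ <;> simp [code]

/-- the shape with a given number -/
def decode : ℕ → Shp
  | 0 => .tile .P
  | 1 => .tile .Q
  | 2 => .tile .Qm
  | 3 => .tile .R
  | 4 => .tile .U
  | 5 => .tile .Tap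
  | 6 => .tile .Tbp
  | 7 => .tile .Tam
  | 8 => .tile .Tbm
  | 9 => .lever true
  | _ => .lever false

theorem decode_code (s : Shp) : decode (code s) = s := by
  rcases s with t | σ
  · cases t <;> rfl
  · cases σ <;> rfl

theorem code_inj {s t : Shp} (h : code s = code t) : s = t := by
  rw [← decode_code s, ← decode_code t, h]

theorem sameShape_refl (P : Polygon) : SameShape P P := by
  refine ⟨⟨1, 0, by simp⟩, ?_⟩
  have : (⟨1, 0, by simp⟩ : Motion).app = id := by
    funext z
    simp [Motion.app]
  rw [this, Set.image_id]

/-- P3 from P1 and P2 -/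
theorem p3 (hP1 : P1Stmt) (hP2 : P2Stmt) : P3Stmt := by
  intro m G hG hm
  obtain ⟨hC1, hC2⟩ := hP2 m G hG hm
  set s : ℂ := ⟨shift m, shift m⟩ with hs
  have hS : ∀ x : Cell G, region (poly m (G.shp x)) = T s '' (G.shp x).reg ((1 / 2) ^ m) :=
    fun x => (hP1 m (G.shp x) hm).2
  have hC : region (G.contPoly m) = T s '' G.cont ((1 / 2) ^ m) := hC2
  refine ⟨?_, ⟨hC1, fun P hP => ?_⟩, fun k hk => ?_⟩
  · rw [solvable_iff]
    constructor
    · rintro ⟨φ, h1, h2⟩
      have h3 : ∀ x, (φ x).app '' region (poly m (G.shp x)) =
          T s '' (img ((1 / 2) ^ m) (conj (-s) (φ x)) (G.shp x)) := fun x => by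
        conv_lhs => rw [← conj_conj s (φ x)]
        rw [hS x, conj_image]
        rfl
      refine ⟨⟨fun x => conj (-s) (φ x), fun x => ?_, fun x y hxy => ?_⟩⟩
      · have := h1 x
        rw [h3, hC] at this
        exact (Set.image_subset_image_iff (T_inj s)).1 this
      · have := h2 x y hxy
        rw [h3, h3, T_interior, T_interior] at this
        exact (Set.disjoint_image_iff (T_inj s)).1 this
    · rintro ⟨p⟩
      have h3 : ∀ x, (conj s (p.g x)).app '' region (poly m (G.shp x)) =
          T s '' (img ((1 / 2) ^ m) (p.g x) (G.shp x)) := fun x => by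
        rw [hS x, conj_image]
        rfl
      refine ⟨fun x => conj s (p.g x), fun x => ?_, fun x y hxy => ?_⟩
      · rw [h3, hC]
        exact Set.image_mono (p.sub x)
      · rw [h3, h3, T_interior, T_interior]
        exact (Set.disjoint_image_iff (T_inj s)).2 (p.disj x y hxy)
  · have hP' : P ∈ G.shapes.map (poly m) := hP
    obtain ⟨t, _, rfl⟩ := List.mem_map.1 hP'
    exact (hP1 m t hm).1
  · have hlen : (inst m G).pieces.length = G.shapes.length := by
      change (G.shapes.map (poly m)).length = _
      rw [List.length_map]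
    refine ⟨fun i => ⟨code (G.shapes[i.1]'(hlen ▸ i.2)), (code_lt _).trans_le hk⟩, fun i j hij => ?_⟩
    have h1 := code_inj (Fin.mk.inj hij)
    have h2 : ∀ i : Fin (inst m G).pieces.length, (inst m G).pieces.get i =
        poly m (G.shapes[i.1]'(hlen ▸ i.2)) := fun i => by
      have e : (inst m G).pieces = G.shapes.map (poly m) := rfl
      simp only [List.get_eq_getElem, e, List.getElem_map]
    rw [h2, h2, h1]
    exact sameShape_refl _

end Pool.Agent.Helper34_Pack
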