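import Pool.Agent.Helper2_Pack.Stmts3

/-!
# Chains: evaluation of `chainVal`, tents
-/

namespace Pool.Agent.Helper34_Pack

open Pool.Agent.Helper2_Pack

/-- `f` is linear on the segment from `p` to `r` -/
def Seg (f : ℝ → ℝ) (p r : ℚ × ℚ) : Prop := p.1 < r.1 ∧ ∀ x : ℝ, (p.1 : ℝ) ≤ x → x ≤ r.1 →
  (p.2 : ℝ) + (x - p.1) / (r.1 - p.1) * (r.2 - p.2) = f x

theorem Seg.of_slope {f : ℝ → ℝ} {p r : ℚ × ℚ} (s : ℝ) (hlt : p.1 < r.1)
    (hs : (r.2 : ℝ) - p.2 = s * (r.1 - p.1))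
    (h : ∀ x : ℝ, (p.1 : ℝ) ≤ x → x ≤ r.1 → f x = p.2 + s * (x - p.1)) : Seg f p r := by
  refine ⟨hlt, fun x h1 h2 => ?_⟩
  have h3 : (r.1 : ℝ) - p.1 ≠ 0 := by
    have : (p.1 : ℝ) < r.1 := by exact_mod_cast hlt
    linarith
  rw [h x h1 h2, hs]
  field_simp

theorem Seg.flat {f : ℝ → ℝ} {a b g : ℚ} (hlt : a < b)
    (h : ∀ x : ℝ, (a : ℝ) ≤ x → x ≤ b → f x = g) : Seg f (a, g) (b, g) :=
  Seg.of_slope 0 hlt (by simp) fun x h1 h2 => by simpa using h x h1 h2

theorem chain_strict {f : ℝ → ℝ} {L : List (ℚ × ℚ)} (h : L.IsChain (Seg f)) : StrictX L := by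
  have h1 : L.IsChain (fun p r : ℚ × ℚ => p.1 < r.1) := h.imp fun _ _ h => h.1
  have : IsTrans (ℚ × ℚ) (fun p r : ℚ × ℚ => p.1 < r.1) := ⟨fun a b c h1 h2 => lt_trans h1 h2⟩
  exact List.isChain_iff_pairwise.1 h1

theorem chain_eval {f : ℝ → ℝ} : ∀ (p r : ℚ × ℚ) (L : List (ℚ × ℚ)) (b : ℚ × ℚ) (x : ℝ),
    (p :: r :: L).IsChain (Seg f) → (p.1 : ℝ) ≤ x → (p :: r :: L).getLast? = some b → x ≤ b.1 →
    chainVal (p :: r :: L) x = f x
  | p, r, L, b, x, hc, h1, hb, h2 => by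
    rw [List.isChain_cons_cons] at hc
    rw [chainVal]
    split_ifs with hx
    · exact hc.1.2 x h1 hx
    · push Not at hx
      match L, hc, hb with
      | [], hc, hb =>
        simp only [List.getLast?_cons_cons, List.getLast?_singleton, Option.some.injEq] at hb
        subst hb
        exact absurd h2 (not_le.2 hx)
      | s :: L, hc, hb =>
        exact chain_eval r s L b x hc.2 hx.le (by rw [← hb, List.getLast?_cons_cons]; simp) h2

/-- cast of a list of points -/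
def castL (L : List (ℚ × ℚ)) : List (ℝ × ℝ) := L.map fun d => ((d.1 : ℝ), (d.2 : ℝ))

theorem tents_cons (g : ℝ) (d : ℝ × ℝ) (L : List (ℝ × ℝ)) (x : ℝ) :
    tents g (d :: L) x = max (d.2 - |x - d.1|) (tents g L x) := rfl

theorem le_tents (g : ℝ) : ∀ (L : List (ℝ × ℝ)) (x : ℝ), g ≤ tents g L x
  | [], _ => le_refl _
  | d :: L, x => (le_tents g L x).trans (by rw [tents_cons]; exact le_max_right _ _)

theorem tents_le_iff (g y : ℝ) : ∀ (L : List (ℝ × ℝ)) (x : ℝ), tents g L x ≤ y ↔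
    g ≤ y ∧ ∀ d ∈ L, d.2 - |x - d.1| ≤ y
  | [], x => by simp [tents]
  | d :: L, x => by
    rw [tents_cons, max_le_iff, tents_le_iff g y L x]
    simp only [List.mem_cons, forall_eq_or_imp]
    tauto

theorem mem_le_tents (g : ℝ) {L : List (ℝ × ℝ)} {d : ℝ × ℝ} (h : d ∈ L) (x : ℝ) :
    d.2 - |x - d.1| ≤ tents g L x := ((tents_le_iff g _ L x).1 le_rfl).2 d h

theorem tents_eq_base {g : ℝ} {L : List (ℝ × ℝ)} {x : ℝ} (h : ∀ d ∈ L, d.2 - |x - d.1| ≤ g) :
    tents g L x = g := le_antisymm ((tents_le_iff g g L x).2 ⟨le_rfl, h⟩) (le_tents g L x)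

theorem max_tents {g g' : ℝ} (hg : g' ≤ g) (L : List (ℝ × ℝ)) (x : ℝ) :
    max g (tents g' L x) = tents g L x := by
  refine le_antisymm (max_le (le_tents _ _ _) ((tents_le_iff _ _ _ _).2 ⟨hg.trans (le_tents _ _ _),
    fun d hd => mem_le_tents g hd x⟩)) ((tents_le_iff _ _ _ _).2 ⟨le_max_left _ _, fun d hd =>
    (mem_le_tents g' hd x).trans (le_max_right _ _)⟩)

theorem tents_congr {g : ℝ} {L L' : List (ℝ × ℝ)} {x x' : ℝ}
    (h1 : ∀ d ∈ L, d.2 - |x - d.1| ≤ g ∨ ∃ e ∈ L', d.2 - |x - d.1| = e.2 - |x' - e.1|)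
    (h2 : ∀ d ∈ L', d.2 - |x' - d.1| ≤ g ∨ ∃ e ∈ L, d.2 - |x' - d.1| = e.2 - |x - e.1|) :
    tents g L x = tents g L' x' := by
  refine le_antisymm ((tents_le_iff _ _ _ _).2 ⟨le_tents _ _ _, fun d hd => ?_⟩)
    ((tents_le_iff _ _ _ _).2 ⟨le_tents _ _ _, fun d hd => ?_⟩)
  · rcases h1 d hd with h | ⟨e, he, h⟩
    · exact h.trans (le_tents _ _ _)
    · rw [h]; exact mem_le_tents g he x'
  · rcases h2 d hd with h | ⟨e, he, h⟩
    · exact h.trans (le_tents _ _ _)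
    · rw [h]; exact mem_le_tents g he x

/-- tents with a border -/
theorem tent_chain (g hi : ℚ) (f : ℝ → ℝ) : ∀ (L : List (ℚ × ℚ)) (lo : ℚ), lo < hi →
    (∀ x : ℝ, (lo : ℝ) ≤ x → x ≤ hi → f x = tents g (castL L) x) →
    (∀ d ∈ L, g < d.2 ∧ lo < d.1 - (d.2 - g) ∧ d.1 + (d.2 - g) < hi) →
    L.Pairwise (fun d e => d.1 + (d.2 - g) < e.1 - (e.2 - g)) →
    ((lo, g) :: (tentPts g L ++ [(hi, g)])).IsChain (Seg f)
  | [], lo, hlt, hf, _, _ => by
    simp only [tentPts, List.flatMap_nil, List.nil_append, List.isChain_cons_cons,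
      List.isChain_singleton, and_true]
    exact Seg.flat hlt fun x h1 h2 => by rw [hf x h1 h2]; rfl
  | d :: L, lo, hlt, hf, hd, hp => by
    obtain ⟨hd1, hd2, hd3⟩ := hd d List.mem_cons_self
    have hp1 : ∀ {c : ℚ × ℚ}, c ∈ L → d.1 + (d.2 - g) < c.1 - (c.2 - g) := fun {c} hc =>
      List.rel_of_pairwise_cons hp hc
    have e : tentPts g (d :: L) = (d.1 - (d.2 - g), g) :: (d.1, d.2) :: (d.1 + (d.2 - g), g) ::
      tentPts g L := by simp [tentPts]
    have hd1' : (g : ℝ) < d.2 := by exact_mod_cast hd1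
    have hd2' : (lo : ℝ) < d.1 - (d.2 - g) := by exact_mod_cast hd2
    have hd3' : (d.1 : ℝ) + (d.2 - g) < hi := by exact_mod_cast hd3
    have hL : ∀ x : ℝ, x ≤ d.1 + (d.2 - g) → tents g (castL L) x = g := fun x hx => by
      refine tents_eq_base fun c hc => ?_
      obtain ⟨c, hc', rfl⟩ := List.mem_map.1 hc
      clear hc
      have hc := hc'
      have h1 : (d.1 : ℝ) + (d.2 - g) < c.1 - (c.2 - g) := by exact_mod_cast hp1 hc
      dsimp only
      have h3 := (hd c (List.mem_cons_of_mem _ hc)).1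
      have h3' : (g : ℝ) < c.2 := by exact_mod_cast h3
      linarith [neg_abs_le (x - c.1)]
    rw [e]
    simp only [List.cons_append, List.isChain_cons_cons]
    have hfe : ∀ x : ℝ, (lo : ℝ) ≤ x → x ≤ d.1 + (d.2 - g) → f x = max (d.2 - |x - d.1|) g :=
      fun x h1 h2 => by
        rw [hf x h1 (by linarith)]
        change tents g (((d.1 : ℝ), (d.2 : ℝ)) :: castL L) x = _
        rw [tents_cons, hL x h2]
    refine ⟨Seg.flat hd2 fun x h1 h2 => ?_, Seg.of_slope 1 (by dsimp only; linarith)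
      (by push_cast; ring) fun x h1 h2 => ?_, Seg.of_slope (-1) (by dsimp only; linarith)
      (by push_cast; ring) fun x h1 h2 => ?_, ?_⟩
    · push_cast at h2
      rw [hfe x h1 (by linarith), max_eq_right]
      linarith [neg_abs_le (x - d.1)]
    · push_cast at h1 h2 ⊢
      rw [hfe x (by linarith) (by linarith), abs_of_nonpos (by linarith), max_eq_left (by linarith)]
      ring
    · push_cast at h1 h2 ⊢
      rw [hfe x (by linarith) (by linarith), abs_of_nonneg (by linarith), max_eq_left (by linarith)]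
      ring
    · refine tent_chain g hi f L (d.1 + (d.2 - g)) hd3 (fun x h1 h2 => ?_) (fun c hc =>
        ⟨(hd c (List.mem_cons_of_mem _ hc)).1, hp1 hc, (hd c (List.mem_cons_of_mem _ hc)).2.2⟩)
        hp.of_cons
      push_cast at h1
      rw [hf x (by linarith) h2]
      change tents g (((d.1 : ℝ), (d.2 : ℝ)) :: castL L) x = _
      rw [tents_cons, max_eq_right]
      refine le_trans ?_ (le_tents _ _ _)
      dsimp only
      linarith [le_abs_self (x - d.1)]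

end Pool.Agent.Helper34_Pack
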