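import Pool.Agent.Helper34_Pack.Chain

/-!
# P9: the chains of the floor and of the ceiling
-/

namespace Pool.Agent.Helper34_Pack

open Pool.Agent.Helper2_Pack

theorem marks_pw (a : Col) : a.marks.Pairwise fun p r => p + 3 ≤ r := by
  cases a <;> simp [Col.marks]

theorem marks_mem {a : Col} {p : ℕ} (h : p ∈ a.marks) : 10 ≤ p ∧ p ≤ 29 := by
  cases a <;> simp [Col.marks] at h <;> omega

theorem marks_mem14 {a : Col} {p : ℕ} (h : p ∈ a.marks) (hp : p < 16) : p ≤ 14 := by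
  cases a <;> simp [Col.marks] at h <;> omega

theorem marks_mem18 {a : Col} {p : ℕ} (h : p ∈ a.marks) (hp : 16 < p) : 18 ≤ p := by
  cases a <;> simp [Col.marks] at h <;> omega

/-- numerical facts on `q` -/
structure QF (q a b : ℝ) : Prop where
  q0 : 0 < q
  q1 : q ≤ 1 / 2 ^ 20
  a0 : 0 < a
  a1 : a ≤ q / 2 ^ 40
  b0 : 0 < b
  b1 : b ≤ a / 2 ^ 20

theorem QF.mk' {q : ℝ} (h0 : 0 < q) (h1 : q ≤ 1 / 2 ^ 20) : QF q (q ^ 3) (q ^ 4) := by
  have h2 : q ^ 2 ≤ 1 / 2 ^ 40 := by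
    calc q ^ 2 ≤ (1 / 2 ^ 20) ^ 2 := pow_le_pow_left₀ h0.le h1 2
      _ = 1 / 2 ^ 40 := by norm_num
  refine ⟨h0, h1, by positivity, ?_, by positivity, ?_⟩
  · have : q ^ 3 = q * q ^ 2 := by ring
    rw [this, div_eq_mul_one_div]
    exact mul_le_mul_of_nonneg_left h2 h0.le
  · have : q ^ 4 = q ^ 3 * q := by ring
    rw [this, div_eq_mul_one_div]
    exact mul_le_mul_of_nonneg_left h1 (by positivity)

/-! ### The floor -/

/-- the tents of the floor -/
def gtents (q : ℚ) (G : Layout) : List (ℚ × ℚ) :=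
  (List.range G.M).flatMap fun c : ℕ => (G.ty c 0).bot.marks.map fun p : ℕ => ((c : ℚ) + (p : ℚ) / 32, q)

theorem floorPts_eq (q : ℚ) (G : Layout) :
    G.floorPts q = ((0 : ℚ), (0 : ℚ)) :: (tentPts 0 (gtents q G) ++ [((G.M : ℚ), (0 : ℚ))]) := by
  unfold Layout.floorPts gtents tentPts place
  rw [List.flatMap_assoc]
  simp only [List.map_flatMap, List.flatMap_map, List.cons_append, List.nil_append]
  congr 2
  congr 1
  funext c
  congr 1
  funext p
  simp
  constructor <;> ring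

theorem floor_eval (q : ℚ) (G : Layout) (h0 : 0 < q) (h1 : q ≤ 1 / 2 ^ 20) (x : ℝ) (hx0 : 0 ≤ x)
    (hx1 : x ≤ G.M) : G.floorF q x = tents 0 (castL (gtents q G)) x := by
  have h0' : (0 : ℝ) < q := by exact_mod_cast h0
  have h1' : (q : ℝ) ≤ 1 / 2 ^ 20 := by
    have : ((q : ℚ) : ℝ) ≤ ((1 / 2 ^ 20 : ℚ) : ℝ) := by exact_mod_cast h1
    push_cast at this
    exact this
  have hf1 : (⌊x⌋₊ : ℝ) ≤ x := Nat.floor_le hx0
  have hf2 : x < ⌊x⌋₊ + 1 := Nat.lt_floor_add_one x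
  have key : ∀ c : ℕ, ∀ p : ℕ, c < G.M → p ∈ (G.ty c 0).bot.marks →
      ((((c : ℚ) + (p : ℚ) / 32 : ℚ) : ℝ), (q : ℝ)) ∈ castL (gtents q G) := by
    intro c p hc hp
    unfold castL gtents
    rw [List.mem_map]
    exact ⟨((c : ℚ) + (p : ℚ) / 32, q), List.mem_flatMap.2 ⟨c, List.mem_range.2 hc,
      List.mem_map.2 ⟨p, hp, rfl⟩⟩, rfl⟩
  unfold Layout.floorF locFloor
  refine tents_congr (fun d hd => ?_) fun d hd => ?_
  · unfold bumps at hd
    obtain ⟨p, hp, rfl⟩ := List.mem_map.1 hd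
    obtain ⟨hp1, hp2⟩ := marks_mem hp
    rcases lt_or_ge ⌊x⌋₊ G.M with h | h
    · right
      refine ⟨_, key _ p h hp, ?_⟩
      dsimp only
      congr 2
      push_cast
      ring
    · left
      have h2 : (G.M : ℝ) ≤ ⌊x⌋₊ := by exact_mod_cast h
      have h3 : x - ⌊x⌋₊ = 0 := by linarith
      have h4 : (10 : ℝ) ≤ p := by exact_mod_cast hp1
      dsimp only
      rw [h3, zero_sub, abs_neg, abs_of_nonneg (by positivity)]
      norm_num at h1'
      linarith
  · unfold castL gtents at hd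
    obtain ⟨e, he, rfl⟩ := List.mem_map.1 hd
    obtain ⟨c, hc, he⟩ := List.mem_flatMap.1 he
    rw [List.mem_range] at hc
    obtain ⟨p, hp, rfl⟩ := List.mem_map.1 he
    obtain ⟨hp1, hp2⟩ := marks_mem hp
    have hp1' : (10 : ℝ) ≤ p := by exact_mod_cast hp1
    have hp2' : (p : ℝ) ≤ 29 := by exact_mod_cast hp2
    norm_num at h1'
    rcases lt_trichotomy c ⌊x⌋₊ with h | h | h
    · left
      have h2 : (c : ℝ) + 1 ≤ ⌊x⌋₊ := by exact_mod_cast h
      push_cast
      linarith [le_abs_self (x - (c + p / 32 : ℝ))]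
    · right
      subst h
      refine ⟨((p : ℝ) / 32, (q : ℝ)), ?_, ?_⟩
      · unfold bumps
        exact List.mem_map.2 ⟨p, hp, rfl⟩
      · dsimp only
        congr 2
        push_cast
        ring
    · left
      have h2 : (⌊x⌋₊ : ℝ) + 1 ≤ c := by exact_mod_cast h
      push_cast
      linarith [neg_abs_le (x - (c + p / 32 : ℝ))]

theorem floor_chain (q : ℚ) (G : Layout) (h0 : 0 < q) (h1 : q ≤ 1 / 2 ^ 20) (hM : 0 < G.M) :
    (G.floorPts q).IsChain (Seg (G.floorF q)) := by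
  rw [floorPts_eq]
  norm_num at h1
  have hcast : ((0 : ℚ) : ℝ) = 0 := Rat.cast_zero
  refine tent_chain 0 G.M _ (gtents q G) 0 (by exact_mod_cast hM) (fun x hx0 hx1 => ?_)
    (fun d hd => ?_) ?_
  · rw [hcast] at hx0 ⊢
    exact floor_eval q G h0 (by norm_num; exact h1) x hx0 (by exact_mod_cast hx1)
  · unfold gtents at hd
    obtain ⟨c, hc, hd⟩ := List.mem_flatMap.1 hd
    rw [List.mem_range] at hc
    obtain ⟨p, hp, rfl⟩ := List.mem_map.1 hd
    obtain ⟨hp1, hp2⟩ := marks_mem hp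
    have hp1' : (10 : ℚ) ≤ p := by exact_mod_cast hp1
    have hp2' : (p : ℚ) ≤ 29 := by exact_mod_cast hp2
    have hc' : (c : ℚ) + 1 ≤ G.M := by exact_mod_cast hc
    have hc0 : (0 : ℚ) ≤ c := by positivity
    refine ⟨h0, ?_, ?_⟩ <;> dsimp only <;> linarith
  · unfold gtents
    rw [List.pairwise_flatMap]
    refine ⟨fun c _ => ?_, List.pairwise_lt_range.imp fun {c c'} hcc d hd e he => ?_⟩
    · rw [List.pairwise_map]
      refine (marks_pw _).imp fun {p r} hpr => ?_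
      have : (p : ℚ) + 3 ≤ r := by exact_mod_cast hpr
      dsimp only
      linarith
    · obtain ⟨p, hp, rfl⟩ := List.mem_map.1 hd
      obtain ⟨r, hr, rfl⟩ := List.mem_map.1 he
      have hp2' : (p : ℚ) ≤ 29 := by exact_mod_cast (marks_mem hp).2
      have hr' : (10 : ℚ) ≤ r := by exact_mod_cast (marks_mem hr).1
      have hc' : (c : ℚ) + 1 ≤ c' := by exact_mod_cast hcc
      dsimp only
      linarith

/-! ### The ceiling -/

/-- relative height of the first corner of a column -/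
def vL (q : ℚ) : Top → ℚ
  | .portR _ => 1 + q ^ 3
  | _ => 0

/-- relative height of the right end of a column -/
def vR (q : ℚ) : Top → ℚ
  | .portL _ => 1 + q ^ 3
  | _ => 0

theorem castL_map (L : List ℕ) (h : ℚ) (k : ℝ) (hk : (h : ℝ) = k) :
    castL (L.map fun p : ℕ => ((p : ℚ) / 32, h)) = L.map fun p : ℕ => ((p : ℝ) / 32, k) := by
  unfold castL
  rw [List.map_map]
  refine List.map_congr_left fun p _ => ?_
  simp [hk]

/-- tents which are far away -/
theorem far {g h x : ℝ} {L : List ℕ} (hh : ∀ p ∈ L, h - |x - (p : ℝ) / 32| ≤ g) :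
    tents g (L.map fun p : ℕ => ((p : ℝ) / 32, h)) x = g :=
  tents_eq_base fun d hd => by
    obtain ⟨p, hp, rfl⟩ := List.mem_map.1 hd
    exact hh p hp

theorem far_le {g h x y : ℝ} {L : List ℕ} (hg : g ≤ y) (hh : ∀ p ∈ L, h - |x - (p : ℝ) / 32| ≤ y) :
    tents g (L.map fun p : ℕ => ((p : ℝ) / 32, h)) x ≤ y :=
  (tents_le_iff _ _ _ _).2 ⟨hg, fun d hd => by
    obtain ⟨p, hp, rfl⟩ := List.mem_map.1 hd
    exact hh p hp⟩

theorem flat_chain (q : ℚ) (a : Col) (o : ℤ) (h0 : 0 < q) (h1 : q ≤ 1 / 2 ^ 20)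
    (ho : o = -1 ∨ o = 0 ∨ o = 1) :
    ((Top.flat a o).pts q ++ [((1 : ℚ), (0 : ℚ))]).IsChain (Seg (locCeil q (.flat a o))) := by
  have h0' : (0 : ℝ) < q := by exact_mod_cast h0
  have h1' : (q : ℝ) ≤ 1 / 2 ^ 20 := by
    have : ((q : ℚ) : ℝ) ≤ ((1 / 2 ^ 20 : ℚ) : ℝ) := by exact_mod_cast h1
    push_cast at this
    exact this
  have H := QF.mk' h0' h1'
  have E3 : ((q ^ 3 : ℚ) : ℝ) = (q : ℝ) ^ 3 := by push_cast; rfl
  have E4 : ((q ^ 4 : ℚ) : ℝ) = (q : ℝ) ^ 4 := by push_cast; rfl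
  obtain ⟨-, Hq, Ha0, Ha1, Hb0, Hb1⟩ := H
  have ho1 : (-1 : ℝ) ≤ o ∧ (o : ℝ) ≤ 1 := by rcases ho with rfl | rfl | rfl <;> norm_num
  have hob : -(q : ℝ) ^ 4 ≤ o * (q : ℝ) ^ 4 ∧ o * (q : ℝ) ^ 4 ≤ (q : ℝ) ^ 4 := by
    rcases ho with rfl | rfl | rfl <;> push_cast <;> constructor <;> linarith
  norm_num at Hq Ha1 Hb1
  have Ha0q : (0 : ℚ) < q ^ 3 := by positivity
  have Ha1q : q ^ 3 ≤ 1 / 1000 := by
    calc q ^ 3 ≤ (1 / 2 ^ 20) ^ 3 := pow_le_pow_left₀ h0.le h1 3
      _ ≤ 1 / 1000 := by norm_num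
  set A : ℝ := (q : ℝ) ^ 3 with hA
  set B : ℝ := (q : ℝ) ^ 4 with hB
  have hloc : ∀ x : ℝ, locCeil q (.flat a o) x = max (o * B * min 1 (min (x / (4 * A)) ((1 - x) / (4 * A))))
      (tents (o * B - 1) (a.marks.map fun p : ℕ => ((p : ℝ) / 32, o * B + q + A)) x) := fun x => rfl
  -- the border
  have hbord : ∀ (x t : ℝ), 0 ≤ t → t ≤ 1 → (x ≤ 4 * A ∨ 1 - 4 * A ≤ x) →
      max (o * B * t) (tents (o * B - 1) (a.marks.map fun p : ℕ => ((p : ℝ) / 32, o * B + q + A)) x) =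
        o * B * t := by
    intro x t ht0 ht1 hx
    refine max_eq_left ?_
    have h2 : -B ≤ o * B * t := by
      have : |o * B * t| ≤ B := by
        rw [abs_mul, abs_mul, abs_of_pos Hb0, abs_of_nonneg ht0]
        have : |(o : ℝ)| ≤ 1 := abs_le.2 ho1
        calc |(o : ℝ)| * B * t ≤ 1 * B * 1 := by gcongr
          _ = B := by ring
      exact (abs_le.1 this).1
    refine far_le (by linarith) fun p hp => ?_
    obtain ⟨hp1, hp2⟩ := marks_mem hp
    have hp1' : (10 : ℝ) ≤ p := by exact_mod_cast hp1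
    have hp2' : (p : ℝ) ≤ 29 := by exact_mod_cast hp2
    rcases hx with hx | hx
    · linarith [neg_abs_le (x - (p : ℝ) / 32)]
    · linarith [le_abs_self (x - (p : ℝ) / 32)]
  have hmid : ((4 * q ^ 3, o * q ^ 4) :: (tentPts (o * q ^ 4)
      (a.marks.map fun p : ℕ => ((p : ℚ) / 32, o * q ^ 4 + q + q ^ 3)) ++
      [(1 - 4 * q ^ 3, o * q ^ 4)])).IsChain (Seg (locCeil q (.flat a o))) := by
    refine tent_chain _ _ _ _ _ (by linarith) (fun x h1 h2 => ?_) (fun d hd => ?_) ?_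
    · push_cast at h1 h2
      rw [← hA] at h1 h2
      have e1 : ((o * q ^ 4 : ℚ) : ℝ) = o * B := by push_cast; rfl
      rw [hloc, castL_map _ _ (o * B + q + A) (by push_cast; rfl), e1]
      have e2 : min (1 : ℝ) (min (x / (4 * A)) ((1 - x) / (4 * A))) = 1 := by
        refine min_eq_left (le_min ?_ ?_)
        · rw [le_div_iff₀ (by positivity)]; linarith
        · rw [le_div_iff₀ (by positivity)]; linarith
      rw [e2, mul_one, max_tents (by linarith)]
    · obtain ⟨p, hp, rfl⟩ := List.mem_map.1 hd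
      obtain ⟨hp1, hp2⟩ := marks_mem hp
      have hp1' : (10 : ℚ) ≤ p := by exact_mod_cast hp1
      have hp2' : (p : ℚ) ≤ 29 := by exact_mod_cast hp2
      norm_num at h1
      refine ⟨?_, ?_, ?_⟩ <;> dsimp only <;> linarith
    · rw [List.pairwise_map]
      refine (marks_pw _).imp fun {p r} hpr => ?_
      have : (p : ℚ) + 3 ≤ r := by exact_mod_cast hpr
      norm_num at h1
      dsimp only
      linarith
  have hlast : [(1 - 4 * q ^ 3, o * q ^ 4), ((1 : ℚ), (0 : ℚ))].IsChain (Seg (locCeil q (.flat a o))) := by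
    rw [List.isChain_cons_cons]
    refine ⟨Seg.of_slope (-(o * B / (4 * A))) (by dsimp only; linarith) (by
      push_cast; rw [← hA, ← hB]; field_simp; ring) fun x h1 h2 => ?_, List.isChain_singleton _⟩
    push_cast at h1 h2 ⊢
    rw [← hA] at h1
    rw [← hA, ← hB, hloc]
    have e2 : min (1 : ℝ) (min (x / (4 * A)) ((1 - x) / (4 * A))) = (1 - x) / (4 * A) := by
      rw [min_eq_right (a := x / (4 * A)), min_eq_right]
      · rw [div_le_iff₀ (by positivity)]; linarith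
      · gcongr; linarith
    rw [e2, hbord x _ (div_nonneg (by linarith) (by positivity))
      (by rw [div_le_iff₀ (by positivity)]; linarith) (Or.inr h1)]
    field_simp
    ring
  have hfirst : Seg (locCeil q (.flat a o)) ((0 : ℚ), (0 : ℚ)) (4 * q ^ 3, o * q ^ 4) := by
    refine Seg.of_slope (o * B / (4 * A)) (by dsimp only; linarith) (by
      push_cast; rw [← hA, ← hB]; field_simp; ring) fun x h1 h2 => ?_
    push_cast at h1 h2 ⊢
    rw [← hA] at h2
    rw [hloc]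
    have e2 : min (1 : ℝ) (min (x / (4 * A)) ((1 - x) / (4 * A))) = x / (4 * A) := by
      rw [min_eq_left (b := (1 - x) / (4 * A)), min_eq_right]
      · rw [div_le_iff₀ (by positivity)]; linarith
      · gcongr; linarith
    rw [e2, hbord x _ (div_nonneg (by linarith) (by positivity))
      (by rw [div_le_iff₀ (by positivity)]; linarith) (Or.inl h2)]
    field_simp
    ring
  have h3 := List.IsChain.append_overlap (l₁ := (4 * q ^ 3, (o : ℚ) * q ^ 4) :: (tentPts (o * q ^ 4)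
      (a.marks.map fun p : ℕ => ((p : ℚ) / 32, o * q ^ 4 + q + q ^ 3)))) (l₂ := [(1 - 4 * q ^ 3, (o : ℚ) * q ^ 4)])
      (l₃ := [((1 : ℚ), (0 : ℚ))]) (by simpa using hmid) (by simpa using hlast) (by simp)
  have h4 : (((0 : ℚ), (0 : ℚ)) :: ((4 * q ^ 3, (o : ℚ) * q ^ 4) :: (tentPts (o * q ^ 4)
      (a.marks.map fun p : ℕ => ((p : ℚ) / 32, o * q ^ 4 + q + q ^ 3)) ++ [(1 - 4 * q ^ 3, (o : ℚ) * q ^ 4)] ++
      [((1 : ℚ), (0 : ℚ))]))).IsChain (Seg (locCeil q (.flat a o))) := by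
    rw [List.isChain_cons_cons]
    exact ⟨hfirst, by simpa using h3⟩
  simpa [Top.pts] using h4

end Pool.Agent.Helper34_Pack
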