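import Pool.Agent.Helper34_Pack.P9

/-!
# P9: the chains of the rooms of the levers
-/

namespace Pool.Agent.Helper34_Pack

open Pool.Agent.Helper2_Pack

theorem mem_filter_lt {σ : Bool} {p : ℕ} (h : p ∈ (pcol σ).marks.filter (fun p : ℕ => p < 16)) :
    10 ≤ p ∧ p ≤ 14 := by
  rw [List.mem_filter] at h
  have h2 : p < 16 := by simpa using h.2
  exact ⟨(marks_mem h.1).1, marks_mem14 h.1 h2⟩

theorem mem_filter_gt {σ : Bool} {p : ℕ} (h : p ∈ (pcol σ).marks.filter (fun p : ℕ => 16 < p)) :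
    18 ≤ p ∧ p ≤ 29 := by
  rw [List.mem_filter] at h
  have h2 : 16 < p := by simpa using h.2
  exact ⟨marks_mem18 h.1 h2, (marks_mem h.1).2⟩

/-- facts on `q` in `ℝ`, linear form -/
theorem qfacts {q : ℚ} (h0 : 0 < q) (h1 : q ≤ 1 / 2 ^ 20) :
    (0 : ℝ) < q ∧ (q : ℝ) ≤ 1 / 1048576 ∧ (0 : ℝ) < (q : ℝ) ^ 3 ∧
      (q : ℝ) ^ 3 ≤ q / 1099511627776 := by
  have h0' : (0 : ℝ) < q := by exact_mod_cast h0
  have h1' : (q : ℝ) ≤ 1 / 2 ^ 20 := by
    have : ((q : ℚ) : ℝ) ≤ ((1 / 2 ^ 20 : ℚ) : ℝ) := by exact_mod_cast h1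
    push_cast at this
    exact this
  obtain ⟨-, Hq, Ha0, Ha1, -, -⟩ := QF.mk' h0' h1'
  norm_num at Hq Ha1
  exact ⟨h0', by linarith, Ha0, by linarith⟩

theorem q3facts {q : ℚ} (h0 : 0 < q) (h1 : q ≤ 1 / 2 ^ 20) :
    0 < q ^ 3 ∧ q ^ 3 ≤ q / 1000 ∧ q ≤ 1 / 1000 := by
  norm_num at h1
  have h2 : q ^ 2 ≤ 1 / 1000 := by nlinarith
  refine ⟨by positivity, ?_, by linarith⟩
  calc q ^ 3 = q * q ^ 2 := by ring
    _ ≤ q * (1 / 1000) := mul_le_mul_of_nonneg_left h2 h0.le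
    _ = q / 1000 := by ring

theorem portL_chain (q : ℚ) (σ : Bool) (h0 : 0 < q) (h1 : q ≤ 1 / 2 ^ 20) :
    ((Top.portL σ).pts q ++ [((1 : ℚ), 1 + q ^ 3)]).IsChain (Seg (locCeil q (.portL σ))) := by
  obtain ⟨hq0, hq1, hA0, hA1⟩ := qfacts h0 h1
  obtain ⟨ha0, ha1, ha2⟩ := q3facts h0 h1
  set A : ℝ := (q : ℝ) ^ 3 with hA
  have hloc : ∀ x : ℝ, locCeil q (.portL σ) x = max (max (A * min 1 (x / (4 * A)))
      (tents 0 (((pcol σ).marks.filter (fun p : ℕ => p < 16)).map fun p : ℕ => ((p : ℝ) / 32, q + 2 * A)) x))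
      (min (1 + A) (A + (x - 1 / 2 + 2 * A) / A)) := fun x => rfl
  have hfar : ∀ x y : ℝ, 0 ≤ y → (∀ p : ℝ, 10 ≤ p → p ≤ 14 → (q : ℝ) + 2 * A - |x - p / 32| ≤ y) →
      tents 0 (((pcol σ).marks.filter (fun p : ℕ => p < 16)).map fun p : ℕ => ((p : ℝ) / 32, (q : ℝ) + 2 * A)) x ≤ y :=
    fun x y hy h => far_le hy fun p hp => h p (by exact_mod_cast (mem_filter_lt hp).1)
      (by exact_mod_cast (mem_filter_lt hp).2)
  have hmin1 : ∀ x : ℝ, x ≤ 4 * A → A * min 1 (x / (4 * A)) = x / 4 := fun x hx => by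
    rw [min_eq_right (by rw [div_le_iff₀ (by positivity)]; linarith)]
    field_simp
  have hmin2 : ∀ x : ℝ, 4 * A ≤ x → A * min 1 (x / (4 * A)) = A := fun x hx => by
    rw [min_eq_left (by rw [le_div_iff₀ (by positivity)]; linarith), mul_one]
  -- first segment
  have hS1 : Seg (locCeil q (.portL σ)) ((0 : ℚ), (0 : ℚ)) (4 * q ^ 3, q ^ 3) := by
    refine Seg.of_slope (1 / 4) (by dsimp only; linarith) (by push_cast; ring) fun x h1 h2 => ?_
    push_cast at h1 h2 ⊢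
    rw [← hA] at h2
    rw [hloc, hmin1 x h2, max_eq_left (b := min _ _), max_eq_left]
    · ring
    · refine hfar x _ (by linarith) fun p hp1 hp2 => ?_
      linarith [neg_abs_le (x - p / 32)]
    · refine (min_le_right _ _).trans (le_trans ?_ (le_max_left _ _))
      have : (x - 1 / 2 + 2 * A) / A ≤ -1 := by
        rw [div_le_iff₀ hA0]; linarith
      linarith
  -- the middle
  have hmid : ((4 * q ^ 3, q ^ 3) :: (tentPts (q ^ 3)
      (((pcol σ).marks.filter (fun p : ℕ => p < 16)).map fun p : ℕ => ((p : ℚ) / 32, q + 2 * q ^ 3)) ++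
      [(1 / 2 - 2 * q ^ 3, q ^ 3)])).IsChain (Seg (locCeil q (.portL σ))) := by
    refine tent_chain _ _ _ _ _ (by linarith) (fun x h1 h2 => ?_) (fun d hd => ?_) ?_
    · push_cast at h1 h2
      rw [← hA] at h1 h2
      have e1 : ((q ^ 3 : ℚ) : ℝ) = A := by push_cast; rfl
      rw [hloc, castL_map _ _ (q + 2 * A) (by push_cast; rfl), e1, hmin2 x h1,
        max_tents (by linarith), max_eq_left]
      refine (min_le_right _ _).trans (le_trans ?_ (le_tents _ _ _))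
      have : (x - 1 / 2 + 2 * A) / A ≤ 0 := by
        rw [div_le_iff₀ hA0]; linarith
      linarith
    · obtain ⟨p, hp, rfl⟩ := List.mem_map.1 hd
      obtain ⟨hp1, hp2⟩ := mem_filter_lt hp
      have hp1' : (10 : ℚ) ≤ p := by exact_mod_cast hp1
      have hp2' : (p : ℚ) ≤ 14 := by exact_mod_cast hp2
      refine ⟨?_, ?_, ?_⟩ <;> dsimp only <;> linarith
    · rw [List.pairwise_map]
      refine ((marks_pw _).filter _).imp fun {p r} hpr => ?_
      have : (p : ℚ) + 3 ≤ r := by exact_mod_cast hpr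
      dsimp only
      linarith
  -- the wall
  have hS3 : Seg (locCeil q (.portL σ)) ((1 / 2 - 2 * q ^ 3 : ℚ), q ^ 3) (1 / 2 - q ^ 3, 1 + q ^ 3) := by
    refine Seg.of_slope (1 / A) (by dsimp only; linarith) (by
      push_cast; rw [← hA]; field_simp; ring) fun x h1 h2 => ?_
    push_cast at h1 h2 ⊢
    rw [← hA] at h1 h2
    have hd0 : 0 ≤ (x - 1 / 2 + 2 * A) / A := div_nonneg (by linarith) hA0.le
    have hd1 : (x - 1 / 2 + 2 * A) / A ≤ 1 := by rw [div_le_iff₀ hA0]; linarith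
    rw [hloc, hmin2 x (by linarith), min_eq_right (by linarith), max_eq_right]
    · rw [← hA]
      ring
    · refine max_le (by linarith) (hfar x _ (by linarith) fun p hp1 hp2 => ?_)
      linarith [le_abs_self (x - p / 32)]
  -- the room
  have hS4 : Seg (locCeil q (.portL σ)) ((1 / 2 - q ^ 3 : ℚ), 1 + q ^ 3) (1, 1 + q ^ 3) := by
    refine Seg.flat (by linarith) fun x h1 h2 => ?_
    push_cast at h1 h2 ⊢
    rw [← hA] at h1
    have hd1 : 1 ≤ (x - 1 / 2 + 2 * A) / A := by rw [le_div_iff₀ hA0]; linarith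
    rw [hloc, hmin2 x (by linarith), min_eq_left (by linarith), max_eq_right]
    refine max_le (by linarith) (hfar x _ (by linarith) fun p hp1 hp2 => ?_)
    linarith [abs_nonneg (x - p / 32)]
  have h5 : [((1 / 2 - 2 * q ^ 3 : ℚ), q ^ 3), (1 / 2 - q ^ 3, 1 + q ^ 3), (1, 1 + q ^ 3)].IsChain
      (Seg (locCeil q (.portL σ))) := by
    rw [List.isChain_cons_cons, List.isChain_cons_cons]
    exact ⟨hS3, hS4, List.isChain_singleton _⟩
  have h6 := List.IsChain.append_overlap (l₁ := (4 * q ^ 3, q ^ 3) :: (tentPts (q ^ 3)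
      (((pcol σ).marks.filter (fun p : ℕ => p < 16)).map fun p : ℕ => ((p : ℚ) / 32, q + 2 * q ^ 3))))
      (l₂ := [((1 / 2 - 2 * q ^ 3 : ℚ), q ^ 3)])
      (l₃ := [(1 / 2 - q ^ 3, 1 + q ^ 3), (1, 1 + q ^ 3)]) (by simpa using hmid) (by simpa using h5) (by simp)
  have h7 : (((0 : ℚ), (0 : ℚ)) :: ((4 * q ^ 3, q ^ 3) :: (tentPts (q ^ 3)
      (((pcol σ).marks.filter (fun p : ℕ => p < 16)).map fun p : ℕ => ((p : ℚ) / 32, q + 2 * q ^ 3)) ++
      [((1 / 2 - 2 * q ^ 3 : ℚ), q ^ 3)] ++ [(1 / 2 - q ^ 3, 1 + q ^ 3), (1, 1 + q ^ 3)]))).IsChain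
      (Seg (locCeil q (.portL σ))) := by
    rw [List.isChain_cons_cons]
    exact ⟨hS1, by simpa using h6⟩
  simpa [Top.pts] using h7

theorem pivQ_cast (q : ℚ) (σ : Bool) : ((pivQ q σ : ℚ) : ℝ) = piv q σ := by
  unfold pivQ piv
  push_cast
  rfl

theorem piv_bounds {q : ℝ} (σ : Bool) (h0 : 0 < q) : q / 2 ≤ piv q σ ∧ piv q σ ≤ 2 * q := by
  unfold piv
  cases σ <;> simp only [sg] <;> push_cast <;> constructor <;> linarith

theorem pivQ_bounds {q : ℚ} (σ : Bool) (h0 : 0 < q) : q / 2 ≤ pivQ q σ ∧ pivQ q σ ≤ 2 * q := by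
  unfold pivQ
  cases σ <;> simp only [sg] <;> push_cast <;> constructor <;> linarith

theorem portR_chain (q : ℚ) (σ : Bool) (h0 : 0 < q) (h1 : q ≤ 1 / 2 ^ 20) :
    ((Top.portR σ).pts q ++ [((1 : ℚ), (0 : ℚ))]).IsChain (Seg (locCeil q (.portR σ))) := by
  obtain ⟨hq0, hq1, hA0, hA1⟩ := qfacts h0 h1
  obtain ⟨ha0, ha1, ha2⟩ := q3facts h0 h1
  obtain ⟨hP1, hP2⟩ := piv_bounds σ hq0
  set A : ℝ := (q : ℝ) ^ 3 with hA
  set P : ℝ := piv q σ with hP
  have hloc : ∀ x : ℝ, locCeil q (.portR σ) x = max (max (A * min 1 ((1 - x) / (4 * A)))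
      (tents 0 (((pcol σ).marks.filter (fun p : ℕ => 16 < p)).map fun p : ℕ => ((p : ℝ) / 32, q + 2 * A)) x))
      (min (min (1 + A) (A + (1 / 2 + 2 * A - x) / A))
        (P + (1 + A - P) * |x - 4 / 32| / A)) := fun x => rfl
  have hfar : ∀ x y : ℝ, 0 ≤ y → (∀ p : ℝ, 18 ≤ p → p ≤ 29 → (q : ℝ) + 2 * A - |x - p / 32| ≤ y) →
      tents 0 (((pcol σ).marks.filter (fun p : ℕ => 16 < p)).map fun p : ℕ => ((p : ℝ) / 32, (q : ℝ) + 2 * A)) x ≤ y :=
    fun x y hy h => far_le hy fun p hp => h p (by exact_mod_cast (mem_filter_gt hp).1)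
      (by exact_mod_cast (mem_filter_gt hp).2)
  have hmin1 : ∀ x : ℝ, 1 - 4 * A ≤ x → A * min 1 ((1 - x) / (4 * A)) = (1 - x) / 4 := fun x hx => by
    rw [min_eq_right (by rw [div_le_iff₀ (by positivity)]; linarith)]
    field_simp
  have hmin2 : ∀ x : ℝ, x ≤ 1 - 4 * A → A * min 1 ((1 - x) / (4 * A)) = A := fun x hx => by
    rw [min_eq_left (by rw [le_div_iff₀ (by positivity)]; linarith), mul_one]
  have hwall : ∀ x : ℝ, x ≤ 1 / 2 + A → min (1 + A) (A + (1 / 2 + 2 * A - x) / A) = 1 + A := by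
    intro x hx
    refine min_eq_left ?_
    have : 1 ≤ (1 / 2 + 2 * A - x) / A := by rw [le_div_iff₀ hA0]; linarith
    linarith
  have hpeak : ∀ x : ℝ, A ≤ |x - 4 / 32| → 1 + A ≤ P + (1 + A - P) * |x - 4 / 32| / A := by
    intro x hx
    have : 1 ≤ |x - 4 / 32| / A := by rw [le_div_iff₀ hA0]; linarith
    have h2 : (1 + A - P) * 1 ≤ (1 + A - P) * (|x - 4 / 32| / A) :=
      mul_le_mul_of_nonneg_left this (by linarith)
    rw [mul_div_assoc]
    linarith
  have hpeak2 : ∀ x : ℝ, |x - 4 / 32| ≤ A → P + (1 + A - P) * |x - 4 / 32| / A ≤ 1 + A ∧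
      P ≤ P + (1 + A - P) * |x - 4 / 32| / A := by
    intro x hx
    have : |x - 4 / 32| / A ≤ 1 := by rw [div_le_iff₀ hA0]; linarith
    have h2 : (1 + A - P) * (|x - 4 / 32| / A) ≤ (1 + A - P) * 1 :=
      mul_le_mul_of_nonneg_left this (by linarith)
    have h3 : 0 ≤ (1 + A - P) * (|x - 4 / 32| / A) :=
      mul_nonneg (by linarith) (by positivity)
    rw [mul_div_assoc]
    constructor <;> linarith
  -- the parts of height `1 + A`
  have hflat : ∀ x : ℝ, 0 ≤ x → x ≤ 1 / 2 + A → A ≤ |x - 4 / 32| → locCeil q (.portR σ) x = 1 + A := by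
    intro x hx0 hx1 hx2
    rw [hloc, hmin2 x (by linarith), hwall x hx1, min_eq_left (hpeak x hx2), max_eq_right]
    refine max_le (by linarith) (hfar x _ (by linarith) fun p hp1 hp2 => ?_)
    linarith [abs_nonneg (x - p / 32)]
  have hneedle : ∀ x : ℝ, |x - 4 / 32| ≤ A → locCeil q (.portR σ) x =
      P + (1 + A - P) * |x - 4 / 32| / A := by
    intro x hx
    have hx1 := abs_le.1 hx
    rw [hloc, hmin2 x (by linarith), hwall x (by linarith), min_eq_right (hpeak2 x hx).1, max_eq_right]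
    refine (max_le ?_ (hfar x _ (by linarith) fun p hp1 hp2 => ?_)).trans (hpeak2 x hx).2
    · linarith
    · linarith [neg_abs_le (x - p / 32)]
  have hS1 : Seg (locCeil q (.portR σ)) ((0 : ℚ), 1 + q ^ 3) (4 / 32 - q ^ 3, 1 + q ^ 3) := by
    refine Seg.flat (by linarith) fun x h1 h2 => ?_
    push_cast at h1 h2 ⊢
    rw [← hA] at h2
    exact hflat x h1 (by linarith) (by linarith [neg_abs_le (x - 4 / 32)])
  have hS2 : Seg (locCeil q (.portR σ)) ((4 / 32 - q ^ 3 : ℚ), 1 + q ^ 3) (4 / 32, pivQ q σ) := by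
    refine Seg.of_slope (-(1 + A - P) / A) (by dsimp only; linarith) (by
      rw [pivQ_cast]; push_cast; rw [← hA, ← hP]; field_simp; ring) fun x h1 h2 => ?_
    push_cast at h1 h2 ⊢
    rw [← hA] at h1
    have : |x - 4 / 32| = 4 / 32 - x := by rw [abs_of_nonpos (by linarith)]; ring
    rw [hneedle x (by rw [this]; linarith), this, ← hA]
    field_simp
    ring
  have hS3 : Seg (locCeil q (.portR σ)) ((4 / 32 : ℚ), pivQ q σ) (4 / 32 + q ^ 3, 1 + q ^ 3) := by
    refine Seg.of_slope ((1 + A - P) / A) (by dsimp only; linarith) (by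
      rw [pivQ_cast]; push_cast; rw [← hA, ← hP]; field_simp; ring) fun x h1 h2 => ?_
    push_cast at h1 h2 ⊢
    rw [← hA] at h2
    have : |x - 4 / 32| = x - 4 / 32 := by rw [abs_of_nonneg (by linarith)]
    rw [hneedle x (by rw [this]; linarith), this, pivQ_cast, ← hP]
    field_simp
  have hS4 : Seg (locCeil q (.portR σ)) ((4 / 32 + q ^ 3 : ℚ), 1 + q ^ 3) (1 / 2 + q ^ 3, 1 + q ^ 3) := by
    refine Seg.flat (by linarith) fun x h1 h2 => ?_
    push_cast at h1 h2 ⊢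
    rw [← hA] at h1 h2
    exact hflat x (by linarith) (by linarith) (by linarith [le_abs_self (x - 4 / 32)])
  have hS5 : Seg (locCeil q (.portR σ)) ((1 / 2 + q ^ 3 : ℚ), 1 + q ^ 3) (1 / 2 + 2 * q ^ 3, q ^ 3) := by
    refine Seg.of_slope (-1 / A) (by dsimp only; linarith) (by
      push_cast; rw [← hA]; field_simp; ring) fun x h1 h2 => ?_
    push_cast at h1 h2 ⊢
    rw [← hA] at h1 h2
    have hd0 : 0 ≤ (1 / 2 + 2 * A - x) / A := div_nonneg (by linarith) hA0.le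
    have hd1 : (1 / 2 + 2 * A - x) / A ≤ 1 := by rw [div_le_iff₀ hA0]; linarith
    rw [hloc, hmin2 x (by linarith), min_eq_right (a := 1 + A) (by linarith), min_eq_left, max_eq_right]
    · rw [← hA]
      field_simp
      ring
    · refine max_le (by linarith) (hfar x _ (by linarith) fun p hp1 hp2 => ?_)
      linarith [neg_abs_le (x - p / 32)]
    · refine le_trans ?_ (hpeak x (by linarith [le_abs_self (x - 4 / 32)]))
      linarith
  have hmid : ((1 / 2 + 2 * q ^ 3, q ^ 3) :: (tentPts (q ^ 3)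
      (((pcol σ).marks.filter (fun p : ℕ => 16 < p)).map fun p : ℕ => ((p : ℚ) / 32, q + 2 * q ^ 3)) ++
      [(1 - 4 * q ^ 3, q ^ 3)])).IsChain (Seg (locCeil q (.portR σ))) := by
    refine tent_chain _ _ _ _ _ (by linarith) (fun x h1 h2 => ?_) (fun d hd => ?_) ?_
    · push_cast at h1 h2
      rw [← hA] at h1 h2
      have e1 : ((q ^ 3 : ℚ) : ℝ) = A := by push_cast; rfl
      rw [hloc, castL_map _ _ (q + 2 * A) (by push_cast; rfl), e1, hmin2 x h2,
        max_tents (by linarith), max_eq_left]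
      refine (min_le_left _ _).trans ((min_le_right _ _).trans (le_trans ?_ (le_tents _ _ _)))
      have : (1 / 2 + 2 * A - x) / A ≤ 0 := by
        rw [div_le_iff₀ hA0]; linarith
      linarith
    · obtain ⟨p, hp, rfl⟩ := List.mem_map.1 hd
      obtain ⟨hp1, hp2⟩ := mem_filter_gt hp
      have hp1' : (18 : ℚ) ≤ p := by exact_mod_cast hp1
      have hp2' : (p : ℚ) ≤ 29 := by exact_mod_cast hp2
      refine ⟨?_, ?_, ?_⟩ <;> dsimp only <;> linarith
    · rw [List.pairwise_map]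
      refine ((marks_pw _).filter _).imp fun {p r} hpr => ?_
      have : (p : ℚ) + 3 ≤ r := by exact_mod_cast hpr
      dsimp only
      linarith
  have hS7 : Seg (locCeil q (.portR σ)) ((1 - 4 * q ^ 3 : ℚ), q ^ 3) ((1 : ℚ), (0 : ℚ)) := by
    refine Seg.of_slope (-1 / 4) (by dsimp only; linarith) (by push_cast; ring) fun x h1 h2 => ?_
    push_cast at h1 h2 ⊢
    rw [← hA] at h1
    rw [hloc, hmin1 x h1, max_eq_left (b := min _ _), max_eq_left]
    · rw [← hA]; ring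
    · refine hfar x _ (by linarith) fun p hp1 hp2 => ?_
      linarith [le_abs_self (x - p / 32)]
    · refine (min_le_left _ _).trans ((min_le_right _ _).trans (le_trans ?_ (le_max_left _ _)))
      have : (1 / 2 + 2 * A - x) / A ≤ -1 := by
        rw [div_le_iff₀ hA0]; linarith
      linarith
  have h6 := List.IsChain.append_overlap (l₁ := ((1 / 2 + 2 * q ^ 3 : ℚ), q ^ 3) :: (tentPts (q ^ 3)
      (((pcol σ).marks.filter (fun p : ℕ => 16 < p)).map fun p : ℕ => ((p : ℚ) / 32, q + 2 * q ^ 3))))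
      (l₂ := [((1 - 4 * q ^ 3 : ℚ), q ^ 3)])
      (l₃ := [((1 : ℚ), (0 : ℚ))]) (by simpa using hmid) (by
        rw [List.singleton_append, List.isChain_cons_cons]
        exact ⟨hS7, List.isChain_singleton _⟩) (by simp)
  have h7 : (((0 : ℚ), 1 + q ^ 3) :: (4 / 32 - q ^ 3, 1 + q ^ 3) :: (4 / 32, pivQ q σ) ::
      (4 / 32 + q ^ 3, 1 + q ^ 3) :: (1 / 2 + q ^ 3, 1 + q ^ 3) ::
      (((1 / 2 + 2 * q ^ 3 : ℚ), q ^ 3) :: (tentPts (q ^ 3)
      (((pcol σ).marks.filter (fun p : ℕ => 16 < p)).map fun p : ℕ => ((p : ℚ) / 32, q + 2 * q ^ 3)) ++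
      [((1 - 4 * q ^ 3 : ℚ), q ^ 3)] ++ [((1 : ℚ), (0 : ℚ))]))).IsChain
      (Seg (locCeil q (.portR σ))) := by
    rw [List.isChain_cons_cons, List.isChain_cons_cons, List.isChain_cons_cons,
      List.isChain_cons_cons, List.isChain_cons_cons]
    exact ⟨hS1, hS2, hS3, hS4, hS5, by simpa using h6⟩
  simpa [Top.pts] using h7

end Pool.Agent.Helper34_Pack
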