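import Pool.Agent.Helper34_Pack.P9b

/-!
# P9: assembly
-/

namespace Pool.Agent.Helper34_Pack

open Pool.Agent.Helper2_Pack

theorem chain_eval' {f : ℝ → ℝ} {L : List (ℚ × ℚ)} (hc : L.IsChain (Seg f)) {a b : ℚ × ℚ}
    (ha : L.head? = some a) (hb : L.getLast? = some b) (hab : a.1 < b.1) (x : ℝ)
    (h1 : (a.1 : ℝ) ≤ x) (h2 : x ≤ b.1) : chainVal L x = f x := by
  match L, hc, ha, hb with
  | [p], hc, ha, hb =>
    simp only [List.head?_cons, Option.some.injEq, List.getLast?_singleton] at ha hb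
    subst ha
    subst hb
    exact absurd hab (lt_irrefl _)
  | p :: r :: L, hc, ha, hb =>
    simp only [List.head?_cons, Option.some.injEq] at ha
    subst ha
    exact chain_eval p r L b x hc h1 hb h2

theorem seg_first {f : ℝ → ℝ} {p r : ℚ × ℚ} (h : Seg f p r) : f p.1 = p.2 := by
  have h1 : (p.1 : ℝ) < r.1 := by exact_mod_cast h.1
  rw [← h.2 p.1 le_rfl h1.le]
  simp

theorem seg_last {f : ℝ → ℝ} {p r : ℚ × ℚ} (h : Seg f p r) : f r.1 = r.2 := by
  have h1 : (p.1 : ℝ) < r.1 := by exact_mod_cast h.1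
  rw [← h.2 r.1 h1.le le_rfl, div_self (by linarith)]
  ring

theorem chain_first {f : ℝ → ℝ} {p r : ℚ × ℚ} {L : List (ℚ × ℚ)}
    (h : (p :: (L ++ [r])).IsChain (Seg f)) : f p.1 = p.2 := by
  cases L with
  | nil =>
    rw [List.nil_append, List.isChain_cons_cons] at h
    exact seg_first h.1
  | cons s L =>
    rw [List.cons_append, List.isChain_cons_cons] at h
    exact seg_first h.1

theorem chain_last {f : ℝ → ℝ} {r : ℚ × ℚ} : ∀ {p : ℚ × ℚ} {L : List (ℚ × ℚ)},
    (p :: (L ++ [r])).IsChain (Seg f) → f r.1 = r.2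
  | p, [], h => by
    rw [List.nil_append, List.isChain_cons_cons] at h
    exact seg_last h.1
  | p, s :: L, h => by
    rw [List.cons_append, List.isChain_cons_cons] at h
    exact chain_last (p := s) (L := L) h.2

theorem Seg.place {f F : ℝ → ℝ} {p r : ℚ × ℚ} {c N : ℕ} (h : Seg f p r)
    (hF : ∀ x : ℝ, (c : ℝ) + p.1 ≤ x → x ≤ c + r.1 → F x = N + f (x - c)) :
    Seg F (c + p.1, N + p.2) (c + r.1, N + r.2) := by
  refine ⟨by have := h.1; dsimp only; linarith, fun x h1 h2 => ?_⟩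
  push_cast at h1 h2 ⊢
  rw [hF x h1 h2, ← h.2 (x - c) (by linarith) (by linarith)]
  have e1 : x - ((c : ℝ) + p.1) = x - c - p.1 := by ring
  have e2 : ((c : ℝ) + r.1) - ((c : ℝ) + p.1) = r.1 - p.1 := by ring
  rw [e1, e2]
  ring

theorem place_chain {f F : ℝ → ℝ} {c N : ℕ}
    (hF : ∀ x : ℝ, (c : ℝ) ≤ x → x ≤ c + 1 → F x = N + f (x - c)) : ∀ L : List (ℚ × ℚ),
    L.IsChain (Seg f) → (∀ p ∈ L, 0 ≤ p.1 ∧ p.1 ≤ 1) → (place c N L).IsChain (Seg F)
  | [], _, _ => List.isChain_nil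
  | [p], _, _ => List.isChain_singleton _
  | p :: r :: L, hc, hp => by
    rw [List.isChain_cons_cons] at hc
    change ((((c : ℚ) + p.1, (N : ℚ) + p.2)) :: ((c : ℚ) + r.1, (N : ℚ) + r.2) ::
      Helper2_Pack.place c N L).IsChain (Seg F)
    rw [List.isChain_cons_cons]
    refine ⟨hc.1.place fun x h1 h2 => hF x ?_ ?_, place_chain hF (r :: L) hc.2
      fun s hs => hp s (List.mem_cons_of_mem _ hs)⟩
    · have h0 : (0 : ℝ) ≤ p.1 := by exact_mod_cast (hp p List.mem_cons_self).1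
      linarith
    · have h0 : (r.1 : ℝ) ≤ 1 := by
        exact_mod_cast (hp r (List.mem_cons_of_mem _ List.mem_cons_self)).2
      linarith

theorem chain_range {f : ℝ → ℝ} {p r : ℚ × ℚ} {L : List (ℚ × ℚ)}
    (h : (p :: (L ++ [r])).IsChain (Seg f)) : ∀ s ∈ p :: (L ++ [r]), p.1 ≤ s.1 ∧ s.1 ≤ r.1 := by
  have hs := chain_strict h
  unfold StrictX at hs
  have h1 : ∀ s ∈ L ++ [r], p.1 < s.1 := fun s hs' => List.rel_of_pairwise_cons hs hs'
  have h2 : ((p :: L) ++ [r]).Pairwise (fun p r : ℚ × ℚ => p.1 < r.1) := by simpa using hs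
  rw [List.pairwise_append] at h2
  have h3 : ∀ s ∈ p :: L, s.1 < r.1 := fun s hs' => h2.2.2 s hs' r (by simp)
  intro s hs'
  constructor
  · rcases List.mem_cons.1 hs' with rfl | h
    · exact le_rfl
    · exact (h1 s h).le
  · rw [← List.cons_append, List.mem_append] at hs'
    rcases hs' with h | h
    · exact (h3 s h).le
    · rw [List.mem_singleton] at h
      rw [h]

/-- the tail of the list of corners of a column -/
def ptsTail (q : ℚ) : Top → Polygon
  | .flat a o => (4 * q ^ 3, o * q ^ 4) ::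
      (tentPts (o * q ^ 4) (a.marks.map fun p : ℕ => ((p : ℚ) / 32, o * q ^ 4 + q + q ^ 3)) ++
      [(1 - 4 * q ^ 3, o * q ^ 4)])
  | .portL σ => (4 * q ^ 3, q ^ 3) ::
      (tentPts (q ^ 3) (((pcol σ).marks.filter (fun p : ℕ => p < 16)).map fun p : ℕ => ((p : ℚ) / 32, q + 2 * q ^ 3)) ++
      [(1 / 2 - 2 * q ^ 3, q ^ 3), (1 / 2 - q ^ 3, 1 + q ^ 3)])
  | .portR σ => [(4 / 32 - q ^ 3, 1 + q ^ 3), (4 / 32, pivQ q σ),
      (4 / 32 + q ^ 3, 1 + q ^ 3), (1 / 2 + q ^ 3, 1 + q ^ 3), (1 / 2 + 2 * q ^ 3, q ^ 3)] ++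
      tentPts (q ^ 3) (((pcol σ).marks.filter (fun p : ℕ => 16 < p)).map fun p : ℕ => ((p : ℚ) / 32, q + 2 * q ^ 3)) ++
      [(1 - 4 * q ^ 3, q ^ 3)]

theorem pts_eq (q : ℚ) (t : Top) : t.pts q = (0, vL q t) :: ptsTail q t := by
  cases t <;> simp [Top.pts, vL, ptsTail]

theorem col_chain (q : ℚ) (t : Top) (h0 : 0 < q) (h1 : q ≤ 1 / 2 ^ 20)
    (ht : ∀ a o, t = .flat a o → o = -1 ∨ o = 0 ∨ o = 1) :
    (((0 : ℚ), vL q t) :: (ptsTail q t ++ [((1 : ℚ), vR q t)])).IsChain (Seg (locCeil q t)) := by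
  rw [← List.cons_append, ← pts_eq]
  cases t with
  | flat a o => exact flat_chain q a o h0 h1 (ht a o rfl)
  | portL σ => exact portL_chain q σ h0 h1
  | portR σ => exact portR_chain q σ h0 h1

theorem top_flat {G : Layout} (hG : G.OK) (c : ℕ) : ∀ a o, G.top c = .flat a o →
    o = -1 ∨ o = 0 ∨ o = 1 := by
  intro a o h
  rcases lt_or_ge c G.M with hc | hc
  · exact (hG.flat c a o hc h).2
  · have := hG.out c hc
    rw [h] at this
    simp only [Top.flat.injEq] at this
    exact Or.inr (Or.inl this.2)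

theorem vR_eq_vL {G : Layout} (hG : G.OK) (q : ℚ) (c : ℕ) (hc : c < G.M) :
    vR q (G.top c) = vL q (G.top (c + 1)) := by
  rcases ht : G.top c with a | σ | σ
  · rcases ht' : G.top (c + 1) with a' | σ' | σ'
    · rfl
    · rfl
    · rcases lt_or_ge (c + 1) G.M with hc' | hc'
      · have := (hG.portR (c + 1) σ' hc' ht').2
        rw [Nat.add_sub_cancel, ht] at this
        cases this
      · have := hG.out _ hc'
        rw [ht'] at this
        cases this
  · rw [(hG.portL c σ hc ht).2]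
    rfl
  · rcases ht' : G.top (c + 1) with a' | σ' | σ'
    · rfl
    · rfl
    · rcases lt_or_ge (c + 1) G.M with hc' | hc'
      · have := (hG.portR (c + 1) σ' hc' ht').2
        rw [Nat.add_sub_cancel, ht] at this
        cases this
      · have := hG.out _ hc'
        rw [ht'] at this
        cases this

theorem ceilF_col {G : Layout} (hG : G.OK) (q : ℚ) (h0 : 0 < q) (h1 : q ≤ 1 / 2 ^ 20) (c : ℕ)
    (hc : c < G.M) (x : ℝ) (hx0 : (c : ℝ) ≤ x) (hx1 : x ≤ c + 1) :
    G.ceilF q x = G.N + locCeil q (G.top c) (x - c) := by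
  unfold Layout.ceilF
  rcases lt_or_eq_of_le hx1 with hx1 | hx1
  · have : ⌊x⌋₊ = c := (Nat.floor_eq_iff ((Nat.cast_nonneg c).trans hx0)).2 ⟨hx0, hx1⟩
    rw [this]
  · have : ⌊x⌋₊ = c + 1 := by
      rw [Nat.floor_eq_iff ((Nat.cast_nonneg c).trans hx0)]
      push_cast
      constructor <;> linarith
    rw [this, hx1]
    push_cast
    have e1 : (c : ℝ) + 1 - (c + 1) = ((0 : ℚ) : ℝ) := by push_cast; ring
    have e2 : (c : ℝ) + 1 - c = ((1 : ℚ) : ℝ) := by push_cast; ring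
    rw [e1, e2, chain_first (col_chain q _ h0 h1 (top_flat hG (c + 1))),
      chain_last (col_chain q _ h0 h1 (top_flat hG c)), vR_eq_vL hG q c hc]

theorem ceil_ind {G : Layout} (hG : G.OK) (q : ℚ) (h0 : 0 < q) (h1 : q ≤ 1 / 2 ^ 20) : ∀ k : ℕ,
    k ≤ G.M → ((List.range k).flatMap (fun c : ℕ => place c G.N ((G.top c).pts q)) ++
      [((k : ℚ), G.N + vL q (G.top k))]).IsChain (Seg (G.ceilF q))
  | 0, _ => by
    simp
  | k + 1, hk => by
    have ih := ceil_ind hG q h0 h1 k (by omega)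
    have hcol := col_chain q (G.top k) h0 h1 (top_flat hG k)
    have h2 := place_chain (N := G.N) (ceilF_col hG q h0 h1 k (by omega)) _ hcol (by
      intro p hp
      have := chain_range hcol p hp
      exact this)
    have h3 : (place k G.N (((0 : ℚ), vL q (G.top k)) :: (ptsTail q (G.top k) ++
        [((1 : ℚ), vR q (G.top k))]))) = [((k : ℚ), G.N + vL q (G.top k))] ++
        (place k G.N (ptsTail q (G.top k)) ++ [(((k + 1 : ℕ) : ℚ), G.N + vL q (G.top (k + 1)))]) := by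
      rw [← vR_eq_vL hG q k (by omega)]
      simp [place]
    rw [h3] at h2
    have h4 := List.IsChain.append_overlap ih h2 (by simp)
    rw [List.range_succ, List.flatMap_append]
    have h5 : place k G.N ((G.top k).pts q) = ((k : ℚ), G.N + vL q (G.top k)) ::
        place k G.N (ptsTail q (G.top k)) := by
      rw [pts_eq]
      simp [place]
    simpa [h5] using h4

theorem ceil_chain {G : Layout} (hG : G.OK) (q : ℚ) (h0 : 0 < q) (h1 : q ≤ 1 / 2 ^ 20) :
    (G.ceilPts q).IsChain (Seg (G.ceilF q)) := by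
  have h := ceil_ind hG q h0 h1 G.M le_rfl
  have e : vL q (G.top G.M) = 0 := by
    rw [hG.out _ le_rfl]
    rfl
  rw [e, add_zero] at h
  exact h

theorem vL0 {G : Layout} (hG : G.OK) (q : ℚ) : vL q (G.top 0) = 0 := by
  rcases ht : G.top 0 with a | σ | σ
  · rfl
  · rfl
  · exact absurd (hG.portR 0 σ hG.pos ht).1 (lt_irrefl _)

theorem ceil_head {G : Layout} (hG : G.OK) (q : ℚ) : (G.ceilPts q).head? = some (0, (G.N : ℚ)) := by
  unfold Layout.ceilPts
  obtain ⟨M, hM⟩ : ∃ M, G.M = M + 1 := ⟨G.M - 1, by have := hG.pos; omega⟩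
  rw [hM, List.range_succ_eq_map, List.flatMap_cons, pts_eq, vL0 hG]
  simp [place]

theorem ceil_last (G : Layout) (q : ℚ) : (G.ceilPts q).getLast? = some ((G.M : ℚ), (G.N : ℚ)) := by
  unfold Layout.ceilPts
  simp

theorem floor_head (G : Layout) (q : ℚ) : (G.floorPts q).head? = some (0, 0) := by
  unfold Layout.floorPts
  simp

theorem floor_last (G : Layout) (q : ℚ) : (G.floorPts q).getLast? = some ((G.M : ℚ), 0) := by
  unfold Layout.floorPts
  rw [List.getLast?_append_of_ne_nil _ (by simp), List.getLast?_singleton]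

theorem qq_pos (m : ℕ) : 0 < qq m := by unfold qq; positivity

theorem qq_le {m : ℕ} (hm : 20 ≤ m) : qq m ≤ 1 / 2 ^ 20 := by
  unfold qq
  calc ((1 : ℚ) / 2) ^ m ≤ (1 / 2) ^ 20 :=
        pow_le_pow_of_le_one (by norm_num) (by norm_num) hm
    _ = 1 / 2 ^ 20 := by norm_num

theorem qq_cast (m : ℕ) : ((qq m : ℚ) : ℝ) = (1 / 2) ^ m := by
  unfold qq
  push_cast
  rfl

/-- P9 -/
theorem p9 : P9Stmt := by
  intro m G hG hm
  have hf := floor_chain (qq m) G (qq_pos m) (qq_le hm) hG.pos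
  have hc := ceil_chain hG (qq m) (qq_pos m) (qq_le hm)
  refine ⟨chain_strict hf, chain_strict hc, fun x hx0 hx1 => ?_⟩
  rw [← qq_cast]
  have hM : (0 : ℚ) < G.M := by exact_mod_cast hG.pos
  constructor
  · exact chain_eval' hf (floor_head G _) (floor_last G _) hM x (by simpa using hx0)
      (by simpa using hx1)
  · exact chain_eval' hc (ceil_head hG _) (ceil_last G _) hM x (by simpa using hx0)
      (by simpa using hx1)

end Pool.Agent.Helper34_Pack
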